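import Mathlib

set_option autoImplicit false

namespace Pool.Agent.H217Z.Dress

open Finset

/-- Packed table of heights (two bits for each subset of nine points). -/
def BIG : ℕ := 528294531135665246380978688848327698763346509012212504224847220661816203937590015192158368927606868623050130479703936584084351811298889087560042217870695121557412745263367115212790813393034076758011874038273433869098298140344965823998667837234433864516891357208647827456

/-- Height of the subset with bit mask `m`. -/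
def T (m : ℕ) : ℤ := ((BIG >>> (2 * m)) % 4 : ℕ)

/-- Bit mask of a subset. -/
def code (B : Finset (Fin 9)) : ℕ := ∑ i ∈ B, 2 ^ (i : ℕ)

/-- Integer heights. -/
def W (B : Finset (Fin 9)) : ℤ := T (code B)

/-- The tropical Pluecker vector. -/
noncomputable def w (B : Finset (Fin 9)) : ℝ := (W B : ℝ)

/-- The cell of the subdivision induced by `v` selected by `c`. -/
def cell (v : Finset (Fin 9) → ℝ) (c : Fin 9 → ℝ) : Set (Finset (Fin 9)) :=
  {B | B.card = 3 ∧ ∀ B' : Finset (Fin 9), B'.card = 3 →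
    v B - ∑ i ∈ B, c i ≤ v B' - ∑ i ∈ B', c i}

/-- The seven vertices of the tropical plane. -/
def cv : Fin 7 → Fin 9 → ℤ :=
  ![![0, 0, 0, 0, 0, 0, 0, 0, 0],
    ![-1, -1, -1, 0, 0, 0, 0, 0, 0],
    ![-1, -1, -1, -1, 0, -1, -1, 0, 0],
    ![-2, -2, -2, -1, 0, -1, -1, -1, 0],
    ![1, 0, 1, 0, 1, 0, 0, 1, 1],
    ![-2, -2, -2, 0, 0, -1, 0, -1, 0],
    ![1, 0, 1, 0, 2, 0, 0, 2, 1]]

/-- The minimal values. -/
def mu : Fin 7 → ℤ := ![0, 1, 2, 3, -2, 2, -3]

theorem cell_ok : ∀ m : Fin 7, ∀ B : Finset (Fin 9), B.card = 3 →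
    mu m ≤ W B - ∑ i ∈ B, cv m i := by decide +kernel

/-- Membership in the maximal cell `m`. -/
def inCell (m : Fin 7) (B : Finset (Fin 9)) : Prop :=
  B.card = 3 ∧ W B - ∑ i ∈ B, cv m i = mu m

instance (m : Fin 7) (B : Finset (Fin 9)) : Decidable (inCell m B) := by
  unfold inCell; infer_instance

theorem cell_ne : ∀ m : Fin 7, ∃ B : Finset (Fin 9), inCell m B := by decide +kernel

theorem inCell_mem {m : Fin 7} {B : Finset (Fin 9)} (h : inCell m B) :
    B ∈ cell w fun i => (cv m i : ℝ) := by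
  refine ⟨h.1, fun B' hB' => ?_⟩
  have h1 := cell_ok m B' hB'
  rw [← h.2] at h1
  unfold w
  beta_reduce
  exact_mod_cast h1

theorem aff (v : Finset (Fin 9) → ℝ) (H : ∀ c, ∃ c', cell w c ⊆ cell v c') (m : Fin 7) :
    ∃ a : Fin 9 → ℝ, (∀ B, inCell m B → v B = ∑ i ∈ B, a i) ∧
      ∀ B : Finset (Fin 9), B.card = 3 → ∑ i ∈ B, a i ≤ v B := by
  obtain ⟨c', hc'⟩ := H fun i => (cv m i : ℝ)
  obtain ⟨B0, hB0⟩ := cell_ne m
  have h0 := hc' (inCell_mem hB0)
  have hs : ∀ B : Finset (Fin 9), B.card = 3 →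
      ∑ i ∈ B, (c' i + (v B0 - ∑ j ∈ B0, c' j) / 3) = ∑ i ∈ B, c' i + (v B0 - ∑ j ∈ B0, c' j) := by
    intro B hB
    rw [sum_add_distrib, sum_const, hB, nsmul_eq_mul]
    push_cast
    ring
  refine ⟨fun i => c' i + (v B0 - ∑ j ∈ B0, c' j) / 3, fun B hB => ?_, fun B hB => ?_⟩
  · rw [hs B hB.1]
    have h1 := (hc' (inCell_mem hB)).2 B0 hB0.1
    have h2 := h0.2 B hB.1
    linarith
  · rw [hs B hB]
    have h2 := h0.2 B hB
    linarith

theorem sum_par (f : Fin 9 → ℝ) {B1 B2 B3 B4 : Finset (Fin 9)}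
    (h : ∀ x : Fin 9, (if x ∈ B1 then 1 else 0 : ℕ) + (if x ∈ B2 then 1 else 0) =
      (if x ∈ B3 then 1 else 0) + (if x ∈ B4 then 1 else 0)) :
    ∑ i ∈ B1, f i + ∑ i ∈ B2, f i = ∑ i ∈ B3, f i + ∑ i ∈ B4, f i := by
  have e : ∀ B : Finset (Fin 9), ∑ i ∈ B, f i =
      ∑ i, ((if i ∈ B then 1 else 0 : ℕ) : ℝ) * f i := by
    intro B
    simp [ite_mul]
  rw [e B1, e B2, e B3, e B4, ← sum_add_distrib, ← sum_add_distrib]
  refine sum_congr rfl fun i _ => ?_
  rw [← add_mul, ← add_mul, ← Nat.cast_add, ← Nat.cast_add, h i]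

theorem nonzero : ∀ B : Finset (Fin 9), B.card = 3 → inCell 0 B ∨
    B ∈ ([{0, 2, 4}, {0, 2, 7}, {0, 2, 8}, {0, 4, 7}, {0, 4, 8}, {0, 7, 8}, {1, 4, 7}, {1, 4, 8}, {1, 7, 8}, {2, 4, 7}, {2, 4, 8}, {2, 7, 8}, {3, 4, 5}, {3, 4, 6}, {3, 4, 7}, {3, 4, 8}, {3, 5, 6}, {3, 5, 7}, {3, 5, 8}, {3, 6, 7}, {3, 6, 8}, {3, 7, 8}, {4, 5, 6}, {4, 5, 7}, {4, 5, 8}, {4, 6, 7}, {4, 6, 8}, {4, 7, 8}, {5, 6, 7}, {5, 6, 8}, {5, 7, 8}, {6, 7, 8}] : List (Finset (Fin 9))) := by decide +kernel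

theorem propagate (u : Finset (Fin 9) → ℝ) (h0 : ∀ B, inCell 0 B → u B = 0)
    (hs : u {0, 2, 4} = 0)
    (hsq : ∀ (m : Fin 7) (B1 B2 B3 B4 : Finset (Fin 9)),
      (inCell m B1 ∧ inCell m B2 ∧ inCell m B3 ∧ inCell m B4 ∧
        ∀ x : Fin 9, (if x ∈ B1 then 1 else 0 : ℕ) + (if x ∈ B2 then 1 else 0) =
          (if x ∈ B3 then 1 else 0) + (if x ∈ B4 then 1 else 0)) →
      u B1 + u B2 = u B3 + u B4) :
    ∀ B : Finset (Fin 9), B.card = 3 → u B = 0 := by
  have h024 : u {0, 2, 4} = 0 := hs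
  have h012 : u {0, 1, 2} = 0 := h0 _ (by decide +kernel)
  have h018 : u {0, 1, 8} = 0 := h0 _ (by decide +kernel)
  have h048 : u {0, 4, 8} = 0 := by
    have := hsq 4 {0, 4, 8} {0, 1, 2} {0, 2, 4} {0, 1, 8} (by decide +kernel)
    linarith only [this, h012, h024, h018]
  have h245 : u {2, 4, 5} = 0 := h0 _ (by decide +kernel)
  have h257 : u {2, 5, 7} = 0 := h0 _ (by decide +kernel)
  have h027 : u {0, 2, 7} = 0 := by
    have := hsq 4 {0, 2, 7} {2, 4, 5} {2, 5, 7} {0, 2, 4} (by decide +kernel)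
    linarith only [this, h245, h257, h024]
  have h057 : u {0, 5, 7} = 0 := h0 _ (by decide +kernel)
  have h248 : u {2, 4, 8} = 0 := by
    have := hsq 4 {2, 4, 8} {0, 5, 7} {0, 4, 8} {2, 5, 7} (by decide +kernel)
    linarith only [this, h057, h048, h257]
  have h078 : u {0, 7, 8} = 0 := by
    have := hsq 4 {0, 7, 8} {2, 4, 5} {0, 4, 8} {2, 5, 7} (by decide +kernel)
    linarith only [this, h245, h048, h257]
  have h278 : u {2, 7, 8} = 0 := by
    have := hsq 4 {2, 7, 8} {0, 4, 8} {2, 4, 8} {0, 7, 8} (by decide +kernel)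
    linarith only [this, h048, h248, h078]
  have h058 : u {0, 5, 8} = 0 := h0 _ (by decide +kernel)
  have h028 : u {0, 2, 8} = 0 := by
    have := hsq 4 {0, 2, 8} {0, 5, 7} {0, 2, 7} {0, 5, 8} (by decide +kernel)
    linarith only [this, h057, h027, h058]
  have h128 : u {1, 2, 8} = 0 := h0 _ (by decide +kernel)
  have h167 : u {1, 6, 7} = 0 := h0 _ (by decide +kernel)
  have h467 : u {4, 6, 7} = 0 := by
    have := hsq 2 {4, 6, 7} {1, 2, 8} {2, 4, 8} {1, 6, 7} (by decide +kernel)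
    linarith only [this, h128, h248, h167]
  have h068 : u {0, 6, 8} = 0 := h0 _ (by decide +kernel)
  have h038 : u {0, 3, 8} = 0 := h0 _ (by decide +kernel)
  have h347 : u {3, 4, 7} = 0 := by
    have := hsq 2 {3, 4, 7} {0, 6, 8} {4, 6, 7} {0, 3, 8} (by decide +kernel)
    linarith only [this, h068, h467, h038]
  have h157 : u {1, 5, 7} = 0 := h0 _ (by decide +kernel)
  have h148 : u {1, 4, 8} = 0 := by
    have := hsq 2 {1, 4, 8} {0, 5, 7} {0, 4, 8} {1, 5, 7} (by decide +kernel)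
    linarith only [this, h057, h048, h157]
  have h168 : u {1, 6, 8} = 0 := h0 _ (by decide +kernel)
  have h678 : u {6, 7, 8} = 0 := by
    have := hsq 2 {6, 7, 8} {1, 2, 8} {1, 6, 8} {2, 7, 8} (by decide +kernel)
    linarith only [this, h128, h168, h278]
  have h378 : u {3, 7, 8} = 0 := by
    have := hsq 2 {3, 7, 8} {0, 6, 8} {6, 7, 8} {0, 3, 8} (by decide +kernel)
    linarith only [this, h068, h678, h038]
  have h147 : u {1, 4, 7} = 0 := by
    have := hsq 2 {1, 4, 7} {0, 6, 8} {0, 4, 8} {1, 6, 7} (by decide +kernel)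
    linarith only [this, h068, h048, h167]
  have h478 : u {4, 7, 8} = 0 := by
    have := hsq 2 {4, 7, 8} {0, 6, 8} {0, 4, 8} {6, 7, 8} (by decide +kernel)
    linarith only [this, h068, h048, h678]
  have h578 : u {5, 7, 8} = 0 := by
    have := hsq 2 {5, 7, 8} {0, 4, 8} {4, 7, 8} {0, 5, 8} (by decide +kernel)
    linarith only [this, h048, h478, h058]
  have h178 : u {1, 7, 8} = 0 := by
    have := hsq 2 {1, 7, 8} {0, 4, 8} {1, 4, 8} {0, 7, 8} (by decide +kernel)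
    linarith only [this, h048, h148, h078]
  have h045 : u {0, 4, 5} = 0 := h0 _ (by decide +kernel)
  have h457 : u {4, 5, 7} = 0 := by
    have := hsq 2 {4, 5, 7} {0, 4, 8} {4, 7, 8} {0, 4, 5} (by decide +kernel)
    linarith only [this, h048, h478, h045]
  have h036 : u {0, 3, 6} = 0 := h0 _ (by decide +kernel)
  have h367 : u {3, 6, 7} = 0 := by
    have := hsq 5 {3, 6, 7} {0, 6, 8} {0, 3, 6} {6, 7, 8} (by decide +kernel)
    linarith only [this, h068, h036, h678]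
  have h047 : u {0, 4, 7} = 0 := by
    have := hsq 6 {0, 4, 7} {2, 5, 7} {0, 2, 7} {4, 5, 7} (by decide +kernel)
    linarith only [this, h257, h027, h457]
  have h247 : u {2, 4, 7} = 0 := by
    have := hsq 6 {2, 4, 7} {0, 4, 8} {0, 2, 4} {4, 7, 8} (by decide +kernel)
    linarith only [this, h048, h024, h478]
  have h067 : u {0, 6, 7} = 0 := h0 _ (by decide +kernel)
  have h056 : u {0, 5, 6} = 0 := h0 _ (by decide +kernel)
  have h356 : u {3, 5, 6} = 0 := by
    have := hsq 1 {3, 5, 6} {0, 6, 7} {3, 6, 7} {0, 5, 6} (by decide +kernel)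
    linarith only [this, h067, h367, h056]
  have h568 : u {5, 6, 8} = 0 := by
    have := hsq 1 {5, 6, 8} {0, 5, 7} {0, 5, 6} {5, 7, 8} (by decide +kernel)
    linarith only [this, h057, h056, h578]
  have h456 : u {4, 5, 6} = 0 := by
    have := hsq 1 {4, 5, 6} {0, 5, 7} {0, 5, 6} {4, 5, 7} (by decide +kernel)
    linarith only [this, h057, h056, h457]
  have h567 : u {5, 6, 7} = 0 := by
    have := hsq 1 {5, 6, 7} {0, 6, 8} {5, 6, 8} {0, 6, 7} (by decide +kernel)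
    linarith only [this, h068, h568, h067]
  have h035 : u {0, 3, 5} = 0 := h0 _ (by decide +kernel)
  have h358 : u {3, 5, 8} = 0 := by
    have := hsq 1 {3, 5, 8} {0, 5, 7} {0, 3, 5} {5, 7, 8} (by decide +kernel)
    linarith only [this, h057, h035, h578]
  have h037 : u {0, 3, 7} = 0 := h0 _ (by decide +kernel)
  have h357 : u {3, 5, 7} = 0 := by
    have := hsq 1 {3, 5, 7} {0, 6, 8} {5, 6, 8} {0, 3, 7} (by decide +kernel)
    linarith only [this, h068, h568, h037]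
  have h345 : u {3, 4, 5} = 0 := by
    have := hsq 1 {3, 4, 5} {0, 5, 7} {0, 3, 5} {4, 5, 7} (by decide +kernel)
    linarith only [this, h057, h035, h457]
  have h458 : u {4, 5, 8} = 0 := by
    have := hsq 3 {4, 5, 8} {0, 6, 8} {0, 4, 8} {5, 6, 8} (by decide +kernel)
    linarith only [this, h068, h048, h568]
  have h145 : u {1, 4, 5} = 0 := h0 _ (by decide +kernel)
  have h468 : u {4, 6, 8} = 0 := by
    have := hsq 3 {4, 6, 8} {1, 4, 5} {4, 5, 6} {1, 4, 8} (by decide +kernel)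
    linarith only [this, h145, h456, h148]
  have h348 : u {3, 4, 8} = 0 := by
    have := hsq 3 {3, 4, 8} {0, 6, 8} {0, 3, 8} {4, 6, 8} (by decide +kernel)
    linarith only [this, h068, h038, h468]
  have h346 : u {3, 4, 6} = 0 := by
    have := hsq 5 {3, 4, 6} {0, 6, 8} {0, 3, 6} {4, 6, 8} (by decide +kernel)
    linarith only [this, h068, h036, h468]
  have h368 : u {3, 6, 8} = 0 := by
    have := hsq 5 {3, 6, 8} {4, 5, 6} {3, 5, 6} {4, 6, 8} (by decide +kernel)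
    linarith only [this, h456, h356, h468]
  intro B hB
  rcases nonzero B hB with h | h
  · exact h0 B h
  · simp only [List.mem_cons, List.not_mem_nil, or_false] at h
    rcases h with rfl | rfl | rfl | rfl | rfl | rfl | rfl | rfl | rfl | rfl | rfl | rfl | rfl | rfl | rfl | rfl | rfl | rfl | rfl | rfl | rfl | rfl | rfl | rfl | rfl | rfl | rfl | rfl | rfl | rfl | rfl | rfl
    exacts [h024, h027, h028, h047, h048, h078, h147, h148, h178, h247, h248, h278, h345, h346, h347, h348, h356, h357, h358, h367, h368, h378, h456, h457, h458, h467, h468, h478, h567, h568, h578, h678]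

theorem struct (v : Finset (Fin 9) → ℝ) (H : ∀ c, ∃ c', cell w c ⊆ cell v c') :
    ∃ (t : ℝ) (a : Fin 9 → ℝ), 0 ≤ t ∧
      ∀ B : Finset (Fin 9), B.card = 3 → v B = t * w B + ∑ i ∈ B, a i := by
  obtain ⟨a, ha1, ha2⟩ := aff v H 0
  have hw : w {0, 2, 4} = 1 := by
    have : W {0, 2, 4} = 1 := by decide +kernel
    unfold w
    rw [this]
    simp
  refine ⟨v {0, 2, 4} - ∑ i ∈ ({0, 2, 4} : Finset (Fin 9)), a i, a,
    sub_nonneg.2 (ha2 _ (by decide)), fun B hB => ?_⟩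
  set t := v {0, 2, 4} - ∑ i ∈ ({0, 2, 4} : Finset (Fin 9)), a i with ht
  have := propagate (fun B => v B - t * w B - ∑ i ∈ B, a i) ?_ ?_ ?_ B hB
  · linarith
  · intro B hB
    have h1 : W B = 0 := by
      have h2 := hB.2
      have h3 : ∀ i, cv 0 i = 0 := by decide
      have h4 : mu 0 = 0 := rfl
      simpa [h3, h4] using h2
    have h2 := ha1 B hB
    simp only [w, h1]
    simp [h2]
  · simp only [hw]
    linarith
  · rintro m B1 B2 B3 B4 ⟨h1, h2, h3, h4, h5⟩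
    obtain ⟨b, hb, -⟩ := aff v H m
    have hw' : ∀ B, inCell m B → w B = mu m + ∑ i ∈ B, (cv m i : ℝ) := by
      intro B hB
      have : W B = mu m + ∑ i ∈ B, cv m i := by rw [← hB.2]; ring
      unfold w
      exact_mod_cast this
    have e1 := sum_par a h5
    have e2 := sum_par b h5
    have e3 := sum_par (fun i => (cv m i : ℝ)) h5
    simp only [hb B1 h1, hb B2 h2, hb B3 h3, hb B4 h4, hw' B1 h1, hw' B2 h2, hw' B3 h3, hw' B4 h4]
    linear_combination e2 - t * e3 - e1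

/-- The minimum of three numbers is attained twice. -/
def PL (a b c : ℤ) : Prop := (a = b ∧ a ≤ c) ∨ (a = c ∧ a ≤ b) ∨ (b = c ∧ b ≤ a)

instance (a b c : ℤ) : Decidable (PL a b c) := by unfold PL; infer_instance

/-- Height of a triple. -/
def T3 (i j s : Fin 9) : ℤ := T (2 ^ (i : ℕ) + (2 ^ (j : ℕ) + 2 ^ (s : ℕ)))

/-- Five distinct points. -/
def D5 (s i j k l : Fin 9) : Prop := i ≠ s ∧ j ≠ s ∧ k ≠ s ∧ l ≠ s ∧
    i ≠ j ∧ i ≠ k ∧ i ≠ l ∧ j ≠ k ∧ j ≠ l ∧ k ≠ l

instance (s i j k l : Fin 9) : Decidable (D5 s i j k l) := by unfold D5; infer_instance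

theorem pl_table : ∀ s i j k l : Fin 9, D5 s i j k l →
    PL (T3 i j s + T3 k l s) (T3 i k s + T3 j l s) (T3 i l s + T3 j k s) := by
  decide +kernel

theorem w_insert {s i j : Fin 9} (hi : i ≠ s) (hj : j ≠ s) (hij : i ≠ j) :
    w (insert i (insert j {s})) = (T3 i j s : ℝ) := by
  unfold w W code T3
  rw [sum_insert (by simp [hi, hij]), sum_insert (by simp [hj]), sum_singleton]

theorem second_diff (v : Finset (Fin 9) → ℝ) (t : ℝ) (a : Fin 9 → ℝ)
    (h : ∀ B : Finset (Fin 9), B.card = 3 → v B = t * w B + ∑ i ∈ B, a i) :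
    v {1, 3, 0} + v {2, 4, 0} - v {1, 2, 0} - v {4, 3, 0} = t ∧
      v {0, 2, 4} + v {3, 6, 4} - v {0, 3, 4} - v {6, 2, 4} = 3 * t := by
  have e1 := sum_par a (B1 := {1, 3, 0}) (B2 := {2, 4, 0}) (B3 := {1, 2, 0}) (B4 := {4, 3, 0})
    (by decide)
  have e2 := sum_par a (B1 := {0, 2, 4}) (B2 := {3, 6, 4}) (B3 := {0, 3, 4}) (B4 := {6, 2, 4})
    (by decide)
  have w1 : W {1, 3, 0} + W {2, 4, 0} - W {1, 2, 0} - W {4, 3, 0} = 1 := by decide +kernel
  have w2 : W {0, 2, 4} + W {3, 6, 4} - W {0, 3, 4} - W {6, 2, 4} = 3 := by decide +kernel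
  have w1' : w {1, 3, 0} + w {2, 4, 0} - w {1, 2, 0} - w {4, 3, 0} = 1 := by
    unfold w; exact_mod_cast w1
  have w2' : w {0, 2, 4} + w {3, 6, 4} - w {0, 3, 4} - w {6, 2, 4} = 3 := by
    unfold w; exact_mod_cast w2
  rw [h {1, 3, 0} (by decide), h {2, 4, 0} (by decide), h {1, 2, 0} (by decide),
    h {4, 3, 0} (by decide), h {0, 2, 4} (by decide), h {3, 6, 4} (by decide),
    h {0, 3, 4} (by decide), h {6, 2, 4} (by decide)]
  constructor
  · linear_combination e1 + t * w1'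
  · linear_combination e2 + t * w2'

theorem nontrivial : ¬ ∃ c : Fin 9 → ℝ, ∀ B : Finset (Fin 9), B.card = 3 →
    ∀ B' : Finset (Fin 9), B'.card = 3 → w B - ∑ i ∈ B, c i ≤ w B' - ∑ i ∈ B', c i := by
  rintro ⟨c, hc⟩
  have h : ∀ B : Finset (Fin 9), B.card = 3 → w B = 0 * w B +
      ∑ i ∈ B, (c i + (w {0, 1, 2} - ∑ j ∈ ({0, 1, 2} : Finset (Fin 9)), c j) / 3) := by
    intro B hB
    rw [sum_add_distrib, sum_const, hB, nsmul_eq_mul]
    have h1 := hc B hB {0, 1, 2} (by decide)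
    have h2 := hc {0, 1, 2} (by decide) B hB
    push_cast
    linarith
  have h1 := (second_diff w 0 _ h).1
  have h2 := (second_diff w 1 (fun _ => 0) (by simp)).1
  linarith

theorem cell_eq (v : Finset (Fin 9) → ℝ) {t : ℝ} (ht : 0 < t) (a : Fin 9 → ℝ)
    (h : ∀ B : Finset (Fin 9), B.card = 3 → v B = t * w B + ∑ i ∈ B, a i) (c : Fin 9 → ℝ) :
    cell w c = cell v fun i => t * c i + a i := by
  have e : ∀ B : Finset (Fin 9), B.card = 3 →
      v B - ∑ i ∈ B, (t * c i + a i) = t * (w B - ∑ i ∈ B, c i) := by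
    intro B hB
    rw [h B hB, sum_add_distrib, ← mul_sum]
    ring
  ext B
  refine and_congr_right fun hB => forall_congr' fun B' => forall_congr' fun hB' => ?_
  rw [e B hB, e B' hB', mul_le_mul_iff_right₀ ht]

theorem coarsest (v : Finset (Fin 9) → ℝ) (H : ∀ c, ∃ c', cell w c ⊆ cell v c') :
    (∃ c : Fin 9 → ℝ, ∀ B : Finset (Fin 9), B.card = 3 →
      ∀ B' : Finset (Fin 9), B'.card = 3 → v B - ∑ i ∈ B, c i ≤ v B' - ∑ i ∈ B', c i) ∨
    ((∀ c, ∃ c', cell w c = cell v c') ∧ ∀ c, ∃ c', cell v c = cell w c') := by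
  obtain ⟨t, a, ht, h⟩ := struct v H
  rcases ht.eq_or_lt with rfl | ht
  · left
    refine ⟨a, fun B hB B' hB' => ?_⟩
    rw [h B hB, h B' hB']
    simp
  · right
    refine ⟨fun c => ⟨_, cell_eq v ht a h c⟩, fun c => ⟨fun i => (c i - a i) / t, ?_⟩⟩
    rw [cell_eq v ht a h]
    congr 1
    funext i
    field_simp
    ring

theorem rk_exchange (M : Matroid (Fin 9)) (s x y z : Fin 9) :
    (M.eRk (({x, y, s} : Finset (Fin 9)) : Set (Fin 9))).toNat ≤
      (M.eRk (({x, z, s} : Finset (Fin 9)) : Set (Fin 9))).toNat + 1 := by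
  have h1 : M.eRk (({x, y, s} : Finset (Fin 9)) : Set (Fin 9)) ≤
      M.eRk (({x, z, s} : Finset (Fin 9)) : Set (Fin 9)) + 1 := by
    refine le_trans (M.eRk_mono ?_) (M.eRk_insert_le_add_one y _)
    intro p hp
    simp only [coe_insert, coe_singleton, Set.mem_insert_iff, Set.mem_singleton_iff] at hp ⊢
    tauto
  have h2 : M.eRk (({x, z, s} : Finset (Fin 9)) : Set (Fin 9)) ≠ ⊤ :=
    ne_top_of_le_ne_top (Set.toFinite _).encard_lt_top.ne (M.eRk_le_encard _)
  have h3 := ENat.toNat_le_toNat h1 (by simp [h2])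
  rwa [ENat.toNat_add h2 (by simp)] at h3

theorem not_corank (M : Matroid (Fin 9))
    (H1 : ∀ c, ∃ c', cell w c =
      cell (fun B => ((3 : ℕ) : ℝ) - ((M.eRk (B : Set (Fin 9))).toNat : ℝ)) c')
    (H2 : ∀ c, ∃ c', cell (fun B => ((3 : ℕ) : ℝ) - ((M.eRk (B : Set (Fin 9))).toNat : ℝ)) c =
      cell w c') : False := by
  obtain ⟨t, a, ht, h⟩ := struct _ fun c => (H1 c).imp fun c' h => h.subset
  rcases ht.eq_or_lt with rfl | ht
  · obtain ⟨c', hc'⟩ := H2 a
    refine nontrivial ⟨c', fun B hB => ?_⟩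
    have : B ∈ cell w c' := by
      rw [← hc']
      refine ⟨hB, fun B' hB' => ?_⟩
      beta_reduce
      rw [h B hB, h B' hB']
      simp
    exact this.2
  · obtain ⟨h1, h2⟩ := second_diff _ t a h
    have h3 := rk_exchange M 4 0 3 2
    have h4 := rk_exchange M 4 6 2 3
    have e : ({6, 3, 4} : Finset (Fin 9)) = {3, 6, 4} := by decide
    rw [e] at h4
    generalize (M.eRk (({1, 3, 0} : Finset (Fin 9)) : Set (Fin 9))).toNat = r1 at *
    generalize (M.eRk (({2, 4, 0} : Finset (Fin 9)) : Set (Fin 9))).toNat = r2 at *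
    generalize (M.eRk (({1, 2, 0} : Finset (Fin 9)) : Set (Fin 9))).toNat = r3 at *
    generalize (M.eRk (({4, 3, 0} : Finset (Fin 9)) : Set (Fin 9))).toNat = r4 at *
    generalize (M.eRk (({0, 2, 4} : Finset (Fin 9)) : Set (Fin 9))).toNat = r5 at *
    generalize (M.eRk (({3, 6, 4} : Finset (Fin 9)) : Set (Fin 9))).toNat = r6 at *
    generalize (M.eRk (({0, 3, 4} : Finset (Fin 9)) : Set (Fin 9))).toNat = r7 at *
    generalize (M.eRk (({6, 2, 4} : Finset (Fin 9)) : Set (Fin 9))).toNat = r8 at *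
    have h5 : (0 : ℝ) < ((r3 + r4 - r1 - r2 : ℤ) : ℝ) := by push_cast; linarith
    have h6 : (0 : ℤ) < r3 + r4 - r1 - r2 := by exact_mod_cast h5
    have h7 : (1 : ℤ) ≤ r3 + r4 - r1 - r2 := h6
    have h8 : (1 : ℝ) ≤ (r3 : ℝ) + r4 - r1 - r2 := by exact_mod_cast h7
    have h3' : (r7 : ℝ) ≤ r5 + 1 := by exact_mod_cast h3
    have h4' : (r8 : ℝ) ≤ r6 + 1 := by exact_mod_cast h4
    linarith

end Pool.Agent.H217Z.Dress
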