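import Mathlib

set_option autoImplicit false

namespace Pool.Agent.H217Z.Link

open Finset

/-- `area(γ) = ∑ γ_i - #{i : γ_i > 0}` (the subtracted number never exceeds the sum). -/
def area {n : ℕ} (γ : Fin n → ℕ) : ℕ :=
  (∑ i, γ i) - (univ.filter fun i => 0 < γ i).card

/-- `dinv(γ,π) = #{i<j : γ_i = γ_j, π_i > π_j} + #{i<j : γ_j = γ_i + 1, π_i < π_j}`. -/
def dinv {n : ℕ} (γ : Fin n → ℕ) (π : Fin n → ℕ+) : ℕ :=
  (univ.filter fun p : Fin n × Fin n => p.1 < p.2 ∧ γ p.1 = γ p.2 ∧ π p.2 < π p.1).card +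
  (univ.filter fun p : Fin n × Fin n => p.1 < p.2 ∧ γ p.2 = γ p.1 + 1 ∧ π p.1 < π p.2).card

/-- The exponent vector of the monomial `x^π = ∏ x_{π_i}`. -/
noncomputable def xexp {n : ℕ} (π : Fin n → ℕ+) : ℕ+ →₀ ℕ :=
  ∑ i, Finsupp.single (π i) 1

/-- The pairs `(γ, π)` of the sum defining `L_v` (the letter 1 of `v` is `true`, the letter 0 is
`false`) whose term `q^area t^dinv x^π` is the monomial `q^(e 0) t^(e 1) x^m`. -/
def terms {n : ℕ} (v : Fin n → Bool) (m : ℕ+ →₀ ℕ) (e : Fin 2 →₀ ℕ) :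
    Set ((Fin n → ℕ) × (Fin n → ℕ+)) :=
  {p | (∀ i, p.1 i = 0 ↔ v i = true) ∧ area p.1 = e 0 ∧ dinv p.1 p.2 = e 1 ∧ xexp p.2 = m}

/-- The link symmetric function `L_v`, a formal power series in `x_1, x_2, ...` with coefficients
in `ℤ[[q,t]]` (`q` is the variable `0`, `t` the variable `1`): the coefficient of
`q^(e 0) t^(e 1) x^m` is the number of pairs `(γ, π)` contributing that monomial (a finite number,
see `terms_finite`). -/
noncomputable def L {n : ℕ} (v : Fin n → Bool) : MvPowerSeries ℕ+ (MvPowerSeries (Fin 2) ℤ) :=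
  fun m => fun e => ((terms v m e).ncard : ℤ)

/-- The indeterminate `q`, as a constant series in `x`. -/
noncomputable def q : MvPowerSeries ℕ+ (MvPowerSeries (Fin 2) ℤ) :=
  MvPowerSeries.C (MvPowerSeries.X 0)

end Pool.Agent.H217Z.Link
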