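import Mathlib
import Pool.Agent.H217Z.LinkDefs

set_option autoImplicit false

namespace Pool.Agent.H217Z.Link

open Finset

theorem area_eq {n : ℕ} (γ : Fin n → ℕ) : area γ = ∑ i, (γ i - 1) := by
  unfold area
  have h : (∑ i, γ i) = (∑ i, (γ i - 1)) + (univ.filter fun i => 0 < γ i).card := by
    rw [Finset.card_filter, ← Finset.sum_add_distrib]
    refine Finset.sum_congr rfl fun i _ => ?_
    split_ifs with h <;> omega
  omega

theorem terms_finite {n : ℕ} (v : Fin n → Bool) (m : ℕ+ →₀ ℕ) (e : Fin 2 →₀ ℕ) :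
    (terms v m e).Finite := by
  have h1 : (Set.pi Set.univ fun _ : Fin n => Set.Iic (e 0 + 1)).Finite :=
    Set.Finite.pi' (fun _ => Set.finite_Iic _) |>.subset (by
      intro f hf i; exact hf i (Set.mem_univ i))
  have h2 : (Set.pi Set.univ fun _ : Fin n => (m.support : Set ℕ+)).Finite :=
    Set.Finite.pi' (fun _ => m.support.finite_toSet) |>.subset (by
      intro f hf; simpa [Set.mem_pi] using hf)
  refine (h1.prod h2).subset ?_
  rintro ⟨γ, π⟩ ⟨-, ha, -, hx⟩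
  refine ⟨fun i _ => ?_, fun i _ => ?_⟩
  · simp only [Set.mem_Iic]
    rw [area_eq] at ha
    have : γ i - 1 ≤ ∑ j, (γ j - 1) :=
      Finset.single_le_sum (f := fun j => γ j - 1) (fun _ _ => Nat.zero_le _) (mem_univ i)
    simp only at ha
    omega
  · simp only [Finset.mem_coe, Finsupp.mem_support_iff]
    rw [← hx]
    unfold xexp
    rw [Finsupp.finsetSum_apply]
    have : (Finsupp.single (π i) 1 : ℕ+ →₀ ℕ) (π i) ≤
        ∑ j, (Finsupp.single (π j) 1 : ℕ+ →₀ ℕ) (π i) :=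
      Finset.single_le_sum (f := fun j => (Finsupp.single (π j) 1 : ℕ+ →₀ ℕ) (π i))
        (fun _ _ => Nat.zero_le _) (mem_univ i)
    simp only [Finsupp.single_eq_same] at this
    simp only
    omega

theorem dinv_eq {n : ℕ} (γ : Fin n → ℕ) (π : Fin n → ℕ+) :
    dinv γ π = ∑ i, ∑ j, ((if i < j ∧ γ i = γ j ∧ π j < π i then 1 else 0) +
      (if i < j ∧ γ j = γ i + 1 ∧ π i < π j then 1 else 0)) := by
  unfold dinv
  rw [Finset.card_filter, Finset.card_filter, ← Finset.sum_add_distrib, ← Finset.univ_product_univ,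
    Finset.sum_product]

theorem dinv_shift {n : ℕ} (γ : Fin n → ℕ) (π : Fin n → ℕ+) (a : ℕ) (b : ℕ+) :
    dinv (Fin.snoc γ (a + 1) : Fin (n + 1) → ℕ) (Fin.snoc π b : Fin (n + 1) → ℕ+) =
      dinv (Fin.cons a γ : Fin (n + 1) → ℕ) (Fin.cons b π : Fin (n + 1) → ℕ+) := by
  have hL : dinv (Fin.snoc γ (a + 1) : Fin (n + 1) → ℕ) (Fin.snoc π b : Fin (n + 1) → ℕ+) =
      dinv γ π + ∑ i, ((if γ i = a + 1 ∧ b < π i then 1 else 0) +
        (if a = γ i ∧ π i < b then 1 else 0)) := by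
    rw [dinv_eq, dinv_eq, Fin.sum_univ_castSucc, ← Finset.sum_add_distrib]
    have h0 : ∑ j : Fin (n + 1),
        ((if Fin.last n < j ∧ (Fin.snoc γ (a + 1) : Fin (n + 1) → ℕ) (Fin.last n) =
            (Fin.snoc γ (a + 1) : Fin (n + 1) → ℕ) j ∧
            (Fin.snoc π b : Fin (n + 1) → ℕ+) j < (Fin.snoc π b : Fin (n + 1) → ℕ+) (Fin.last n)
            then 1 else 0) +
          (if Fin.last n < j ∧ (Fin.snoc γ (a + 1) : Fin (n + 1) → ℕ) j =
            (Fin.snoc γ (a + 1) : Fin (n + 1) → ℕ) (Fin.last n) + 1 ∧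
            (Fin.snoc π b : Fin (n + 1) → ℕ+) (Fin.last n) < (Fin.snoc π b : Fin (n + 1) → ℕ+) j
            then 1 else 0)) = 0 := by
      refine Finset.sum_eq_zero fun j _ => ?_
      have : ¬ Fin.last n < j := not_lt.2 (Fin.le_last j)
      simp [this]
    rw [h0, add_zero]
    refine Finset.sum_congr rfl fun i _ => ?_
    rw [Fin.sum_univ_castSucc]
    simp [Fin.castSucc_lt_last]
  have hR : dinv (Fin.cons a γ : Fin (n + 1) → ℕ) (Fin.cons b π : Fin (n + 1) → ℕ+) =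
      dinv γ π + ∑ i, ((if a = γ i ∧ π i < b then 1 else 0) +
        (if γ i = a + 1 ∧ b < π i then 1 else 0)) := by
    rw [dinv_eq, dinv_eq, Fin.sum_univ_succ, add_comm]
    congr 1
    · refine Finset.sum_congr rfl fun i _ => ?_
      rw [Fin.sum_univ_succ]
      simp
    · rw [Fin.sum_univ_succ]
      simp
  rw [hL, hR]
  congr 1
  exact Finset.sum_congr rfl fun i _ => add_comm _ _

theorem xexp_shift {n : ℕ} (π : Fin n → ℕ+) (b : ℕ+) :
    xexp (Fin.snoc π b : Fin (n + 1) → ℕ+) = xexp (Fin.cons b π : Fin (n + 1) → ℕ+) := by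
  unfold xexp
  rw [Fin.sum_univ_castSucc, Fin.sum_univ_succ, add_comm]
  simp

theorem area_snoc {n : ℕ} (γ : Fin n → ℕ) (a : ℕ) :
    area (Fin.snoc γ (a + 1) : Fin (n + 1) → ℕ) = area γ + a := by
  rw [area_eq, area_eq, Fin.sum_univ_castSucc]
  simp

theorem area_cons {n : ℕ} (γ : Fin n → ℕ) (a : ℕ) :
    area (Fin.cons a γ : Fin (n + 1) → ℕ) = area γ + (a - 1) := by
  rw [area_eq, area_eq, Fin.sum_univ_succ, add_comm]
  simp

/-- The inverse cyclic shift. -/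
def rot {n : ℕ} (p : (Fin (n + 1) → ℕ) × (Fin (n + 1) → ℕ+)) :
    (Fin (n + 1) → ℕ) × (Fin (n + 1) → ℕ+) :=
  (Fin.snoc (Fin.tail p.1) (p.1 0 + 1), Fin.snoc (Fin.tail p.2) (p.2 0))

theorem rot_cons {n : ℕ} (γ : Fin n → ℕ) (π : Fin n → ℕ+) (a : ℕ) (b : ℕ+) :
    rot ((Fin.cons a γ : Fin (n + 1) → ℕ), (Fin.cons b π : Fin (n + 1) → ℕ+)) =
      ((Fin.snoc γ (a + 1) : Fin (n + 1) → ℕ), (Fin.snoc π b : Fin (n + 1) → ℕ+)) := by
  simp [rot]

theorem rot_inj {n : ℕ} : Function.Injective (rot (n := n)) := by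
  rintro ⟨γ, π⟩ ⟨γ', π'⟩ h
  simp only [rot, Prod.mk.injEq] at h
  obtain ⟨h1, h2⟩ := h
  have h1' := Fin.snoc_injective2 h1
  have h2' := Fin.snoc_injective2 h2
  have e1 : γ = γ' := by
    rw [← Fin.cons_self_tail γ, ← Fin.cons_self_tail γ', h1'.1]
    congr 1
    have := h1'.2
    omega
  have e2 : π = π' := by
    rw [← Fin.cons_self_tail π, ← Fin.cons_self_tail π', h2'.1, h2'.2]
  rw [e1, e2]

theorem mem_snoc {n : ℕ} (v : Fin n → Bool) (m : ℕ+ →₀ ℕ) (e : Fin 2 →₀ ℕ)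
    (γ : Fin n → ℕ) (π : Fin n → ℕ+) (a : ℕ) (b : ℕ+) :
    ((Fin.snoc γ (a + 1) : Fin (n + 1) → ℕ), (Fin.snoc π b : Fin (n + 1) → ℕ+)) ∈
      terms (Fin.snoc v false : Fin (n + 1) → Bool) m e ↔
    (∀ i, γ i = 0 ↔ v i = true) ∧ area γ + a = e 0 ∧
      dinv (Fin.cons a γ : Fin (n + 1) → ℕ) (Fin.cons b π : Fin (n + 1) → ℕ+) = e 1 ∧
      xexp (Fin.cons b π : Fin (n + 1) → ℕ+) = m := by
  simp only [terms, Set.mem_ofPred_eq, area_snoc, dinv_shift, xexp_shift]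
  refine and_congr_left fun _ => ?_
  rw [Fin.forall_fin_succ']
  simp

theorem mem_cons {n : ℕ} (v : Fin n → Bool) (c : Bool) (m : ℕ+ →₀ ℕ) (e : Fin 2 →₀ ℕ)
    (γ : Fin n → ℕ) (π : Fin n → ℕ+) (a : ℕ) (b : ℕ+) :
    ((Fin.cons a γ : Fin (n + 1) → ℕ), (Fin.cons b π : Fin (n + 1) → ℕ+)) ∈
      terms (Fin.cons c v : Fin (n + 1) → Bool) m e ↔
    ((a = 0 ↔ c = true) ∧ ∀ i, γ i = 0 ↔ v i = true) ∧ area γ + (a - 1) = e 0 ∧
      dinv (Fin.cons a γ : Fin (n + 1) → ℕ) (Fin.cons b π : Fin (n + 1) → ℕ+) = e 1 ∧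
      xexp (Fin.cons b π : Fin (n + 1) → ℕ+) = m := by
  simp only [terms, Set.mem_ofPred_eq, area_cons]
  refine and_congr_left fun _ => ?_
  rw [Fin.forall_fin_succ]
  simp

theorem exists_cons {n : ℕ} (p : (Fin (n + 1) → ℕ) × (Fin (n + 1) → ℕ+)) :
    ∃ (γ : Fin n → ℕ) (π : Fin n → ℕ+) (a : ℕ) (b : ℕ+),
      p = ((Fin.cons a γ : Fin (n + 1) → ℕ), (Fin.cons b π : Fin (n + 1) → ℕ+)) :=
  ⟨Fin.tail p.1, Fin.tail p.2, p.1 0, p.2 0, by simp⟩

/-- The terms of `q L_{0v}`. -/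
def qterms {n : ℕ} (v : Fin n → Bool) (m : ℕ+ →₀ ℕ) (e : Fin 2 →₀ ℕ) :
    Set ((Fin (n + 1) → ℕ) × (Fin (n + 1) → ℕ+)) :=
  {p | 1 ≤ e 0 ∧ p ∈ terms (Fin.cons false v : Fin (n + 1) → Bool) m (e - Finsupp.single 0 1)}

theorem terms_snoc {n : ℕ} (v : Fin n → Bool) (m : ℕ+ →₀ ℕ) (e : Fin 2 →₀ ℕ) :
    terms (Fin.snoc v false : Fin (n + 1) → Bool) m e =
      rot '' (terms (Fin.cons true v : Fin (n + 1) → Bool) m e ∪ qterms v m e) := by
  have e0 : (e - Finsupp.single 0 1 : Fin 2 →₀ ℕ) 0 = e 0 - 1 := by simp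
  have e1 : (e - Finsupp.single 0 1 : Fin 2 →₀ ℕ) 1 = e 1 := by simp
  ext ⟨γ', π'⟩
  constructor
  · intro h
    have hl : γ' (Fin.last n) ≠ 0 := by
      have := h.1 (Fin.last n)
      simpa using this
    obtain ⟨a, ha⟩ : ∃ a, γ' (Fin.last n) = a + 1 := ⟨γ' (Fin.last n) - 1, by omega⟩
    have hγ : γ' = Fin.snoc (Fin.init γ') (a + 1) := by rw [← ha, Fin.snoc_init_self]
    have hπ : π' = Fin.snoc (Fin.init π') (π' (Fin.last n)) := by rw [Fin.snoc_init_self]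
    generalize Fin.init γ' = γ at hγ
    generalize Fin.init π' = π at hπ
    generalize π' (Fin.last n) = b at hπ
    subst hγ hπ
    refine ⟨(Fin.cons a γ, Fin.cons b π), ?_, rot_cons _ _ _ _⟩
    rw [mem_snoc] at h
    obtain ⟨h1, h2, h3, h4⟩ := h
    by_cases h0 : a = 0
    · left
      rw [mem_cons]
      exact ⟨⟨by simp [h0], h1⟩, by omega, h3, h4⟩
    · right
      refine ⟨by omega, ?_⟩
      rw [mem_cons, e0, e1]
      exact ⟨⟨by simp [h0], h1⟩, by omega, h3, h4⟩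
  · rintro ⟨p, hp, hr⟩
    obtain ⟨γ, π, a, b, rfl⟩ := exists_cons p
    rw [← hr, rot_cons, mem_snoc]
    rcases hp with hp | ⟨h0, hp⟩
    · rw [mem_cons] at hp
      obtain ⟨⟨h0, h1⟩, h2, h3, h4⟩ := hp
      have : a = 0 := by simpa using h0
      exact ⟨h1, by omega, h3, h4⟩
    · rw [mem_cons, e0, e1] at hp
      obtain ⟨⟨h5, h1⟩, h2, h3, h4⟩ := hp
      have : a ≠ 0 := by simpa using h5
      exact ⟨h1, by omega, h3, h4⟩

theorem recurrence {n : ℕ} (v : Fin n → Bool) :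
    L (Fin.snoc v false : Fin (n + 1) → Bool) =
      L (Fin.cons true v : Fin (n + 1) → Bool) + q * L (Fin.cons false v : Fin (n + 1) → Bool) := by
  ext m e
  have hq : MvPowerSeries.coeff e (MvPowerSeries.coeff m
      (q * L (Fin.cons false v : Fin (n + 1) → Bool))) = ((qterms v m e).ncard : ℤ) := by
    unfold q
    rw [MvPowerSeries.coeff_C_mul, MvPowerSeries.X_def, MvPowerSeries.coeff_monomial_mul]
    by_cases h : 1 ≤ e 0
    · have h' : Finsupp.single (0 : Fin 2) 1 ≤ e := by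
        rw [Finsupp.single_le_iff]; exact h
      rw [if_pos h', one_mul]
      have : qterms v m e =
          terms (Fin.cons false v : Fin (n + 1) → Bool) m (e - Finsupp.single 0 1) := by
        ext p; simp [qterms, h]
      rw [this]
      rfl
    · have h' : ¬ Finsupp.single (0 : Fin 2) 1 ≤ e := by
        rw [Finsupp.single_le_iff]; exact h
      rw [if_neg h']
      have : qterms v m e = ∅ := by
        ext p; simp [qterms, h]
      rw [this]
      simp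
  rw [map_add, map_add, hq]
  change ((terms (Fin.snoc v false : Fin (n + 1) → Bool) m e).ncard : ℤ) =
    ((terms (Fin.cons true v : Fin (n + 1) → Bool) m e).ncard : ℤ) + _
  have hd : Disjoint (terms (Fin.cons true v : Fin (n + 1) → Bool) m e) (qterms v m e) := by
    rw [Set.disjoint_left]
    rintro p hp ⟨-, hp'⟩
    have h1 := hp.1 0
    have h2 := hp'.1 0
    simp at h1 h2
    exact h2 h1
  have hf : (qterms v m e).Finite := (terms_finite _ _ _).subset fun p hp => hp.2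
  rw [terms_snoc, Set.ncard_image_of_injective _ rot_inj,
    Set.ncard_union_eq hd (terms_finite _ _ _) hf]
  push_cast; rfl

end Pool.Agent.H217Z.Link
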