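import Mathlib

set_option autoImplicit false

namespace Pool.Agent.H217Z.Orb

open Polynomial

/-- A non-constant morphism from the projective line to the complex projective plane, of degree
`e ≥ 1`: three binary forms of degree `e` without common zero, written in the affine coordinate
of the line as polynomials of degree at most `e`. -/
structure RatMap where
  e : ℕ
  x : Fin 3 → ℂ[X]
  one_le : 1 ≤ e
  deg_le : ∀ i, (x i).natDegree ≤ e
  base_inf : ∃ i, (x i).coeff e ≠ 0
  base_fin : ∀ a : ℂ, ∃ i, (x i).eval a ≠ 0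

/-- Homogeneous coordinates of the image of a point of the projective line (`none` is the point at
infinity). -/
noncomputable def RatMap.val (f : RatMap) : Option ℂ → Fin 3 → ℂ
  | none => fun i => (f.x i).coeff f.e
  | some a => fun i => (f.x i).eval a

/-- Two coordinate vectors define the same point of the plane. -/
def SamePt (p q : Fin 3 → ℂ) : Prop := ∃ l : ℂ, l ≠ 0 ∧ p = l • q

/-- The map is birational onto its image: injective outside a finite set. -/
def RatMap.Birational (f : RatMap) : Prop :=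
  ∃ T : Finset (Option ℂ), ∀ a ∉ T, ∀ b ∉ T, SamePt (f.val a) (f.val b) → a = b

/-- The form `F` pulled back to the line. -/
noncomputable def RatMap.pull (f : RatMap) (F : MvPolynomial (Fin 3) ℂ) : ℂ[X] :=
  MvPolynomial.aeval f.x F

/-- The order `t_a` of the point `a` in the pull-back of the curve `F = 0` of degree `d`. -/
noncomputable def RatMap.ord (f : RatMap) (F : MvPolynomial (Fin 3) ℂ) (d : ℕ) : Option ℂ → ℕ
  | none => d * f.e - (f.pull F).natDegree
  | some a => (f.pull F).rootMultiplicity a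

/-- `F = 0` is a smooth plane curve of degree `d`. -/
def SmoothCurve (F : MvPolynomial (Fin 3) ℂ) (d : ℕ) : Prop :=
  1 ≤ d ∧ F.IsHomogeneous d ∧ ∀ p : Fin 3 → ℂ, p ≠ 0 → MvPolynomial.eval p F = 0 →
    ∃ i, MvPolynomial.eval p (MvPolynomial.pderiv i F) ≠ 0

/-- `f` is an orbifold rational curve of the pair (plane, `c · {F = 0}`): birational onto its
image, image not inside the curve, and there is an orbifold divisor `∑ c' a · a` on the line with
`deg (K + D_C) < 0` and `t_a m_a ≥ m` at all points `a` over the curve.  With `m = 1 / (1 - c)` and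
`m_a = 1 / (1 - c' a)` (infinite for coefficient `1`) this reads `1 - c' a ≤ t_a (1 - c)`. -/
def OrbRational (F : MvPolynomial (Fin 3) ℂ) (d : ℕ) (c : ℚ) (f : RatMap) : Prop :=
  f.Birational ∧ f.pull F ≠ 0 ∧ ∃ c' : Option ℂ →₀ ℚ, (∀ a, 0 ≤ c' a ∧ c' a ≤ 1) ∧
    (∀ a, MvPolynomial.eval (f.val a) F = 0 → 1 - c' a ≤ (f.ord F d a : ℚ) * (1 - c)) ∧
    -2 + c'.sum (fun _ r => r) < 0

/-- `P` holds at a general point of the plane: outside a countable union of curves. -/
def General (P : (Fin 3 → ℂ) → Prop) : Prop :=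
  ∃ Q : ℕ → MvPolynomial (Fin 3) ℂ, (∀ n, Q n ≠ 0 ∧ ∃ k, (Q n).IsHomogeneous k) ∧
    ∀ p : Fin 3 → ℂ, p ≠ 0 → (∀ n, MvPolynomial.eval p (Q n) ≠ 0) → P p

/-- The pair (plane, `c · {F = 0}`) is uniruled. -/
def Uniruled (F : MvPolynomial (Fin 3) ℂ) (d : ℕ) (c : ℚ) : Prop :=
  General fun p => ∃ f : RatMap, OrbRational F d c f ∧ ∃ a, SamePt (f.val a) p

/-- The pair (plane, `c` times a curve of degree `d`) is weakly uniruled: through a general point
there is an irreducible rational curve `C`, of degree `e`, with `(K + D) · C = (-3 + c d) e < 0`. -/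
def WeaklyUniruled (d : ℕ) (c : ℚ) : Prop :=
  General fun p => ∃ f : RatMap, f.Birational ∧ (∃ a, SamePt (f.val a) p) ∧
    (-3 + c * d) * (f.e : ℚ) < 0

/-- The class `r H` (`H` the class of a line) is pseudo-effective: `r` is a limit of degrees of
effective `ℚ`-divisors `(1 / k) {Q = 0}`. -/
def PseudoEffective (r : ℝ) : Prop :=
  r ∈ closure {s : ℝ | ∃ (Q : MvPolynomial (Fin 3) ℂ) (n k : ℕ),
    Q ≠ 0 ∧ Q.IsHomogeneous n ∧ 0 < k ∧ s = (n : ℝ) / k}

end Pool.Agent.H217Z.Orb
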