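import Mathlib
import Pool.Agent.H217Z.OrbDefs
import Pool.Agent.H598R2.Deriv

set_option autoImplicit false

namespace Pool.Agent.H217Z.Orb

open Polynomial

theorem exists_generic (Q : ℕ → MvPolynomial (Fin 3) ℂ) (hQ : ∀ n, Q n ≠ 0) :
    ∃ (p : Fin 3 → ℂ) (D : Fin 3 → Derivation ℤ ℂ ℂ), (∀ n, MvPolynomial.eval p (Q n) ≠ 0) ∧
      ∀ i j, D i (p j) = if j = i then 1 else 0 := by
  classical
  let S : Set ℂ := ⋃ n, ((Q n).coeffs : Set ℂ)
  have hS : S.Countable := Set.countable_iUnion fun n => (Finset.finite_toSet _).countable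
  let K : IntermediateField ℚ ℂ := IntermediateField.adjoin ℚ S
  have hK : Countable K := by
    have h1 : Cardinal.mk K ≤ Cardinal.aleph0 := by
      refine (Subfield.cardinalMk_closure_le_max _).trans (max_le ?_ le_rfl)
      rw [Cardinal.mk_le_aleph0_iff]
      exact ((Set.countable_range _).union hS).to_subtype
    exact Cardinal.mk_le_aleph0_iff.1 h1
  obtain ⟨t, ht⟩ := exists_isTranscendenceBasis K ℂ
  have htunc : ¬ t.Countable := by
    intro htc
    have h1 := IsAlgClosed.cardinal_le_max_transcendence_basis' _ ht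
    have h2 : Cardinal.mk K ≤ Cardinal.aleph0 := Cardinal.mk_le_aleph0_iff.2 hK
    have h3 : Cardinal.mk t ≤ Cardinal.aleph0 := Cardinal.mk_le_aleph0_iff.2 htc.to_subtype
    have h4 : Cardinal.mk ℂ ≤ Cardinal.aleph0 := h1.trans (max_le (max_le h2 h3) le_rfl)
    rw [Cardinal.mk_complex] at h4
    exact absurd h4 (not_le.2 Cardinal.aleph0_lt_continuum)
  have hinf : Infinite t := by
    by_contra h
    rw [not_infinite_iff_finite] at h
    exact htunc (Set.Finite.countable h)
  let j : Fin 3 ↪ t := Fin.valEmbedding.trans (Infinite.natEmbedding t)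
  choose d hd using fun b : t => Pool.Agent.H598R2.exists_derivation ht b
  refine ⟨fun i => (j i : ℂ), fun i => (d (j i)).restrictScalars ℤ, fun n => ?_, fun i k => ?_⟩
  · have hai : AlgebraicIndependent K fun i => (j i : ℂ) := ht.1.comp j j.injective
    obtain ⟨Q', hQ'⟩ : Q n ∈ Set.range (MvPolynomial.map (algebraMap K ℂ)) := by
      rw [MvPolynomial.mem_range_map_iff_coeffs_subset]
      intro y hy
      exact ⟨⟨y, IntermediateField.subset_adjoin _ _ (Set.mem_iUnion.2 ⟨n, hy⟩)⟩, rfl⟩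
    intro h
    apply hQ n
    rw [← hQ', MvPolynomial.eval_map, ← MvPolynomial.aeval_def] at h
    rw [← hQ', hai.eq_zero_of_aeval_eq_zero Q' h, map_zero]
  · rw [Derivation.restrictScalars_apply, hd]
    simp

theorem dvd_deriv {R A : Type*} [CommRing R] [CommRing A] [Algebra R A] (D : Derivation R A A)
    {q G : A} {m : ℕ} (h : q ^ m ∣ G) : q ^ (m - 1) ∣ D G := by
  obtain ⟨K, rfl⟩ := h
  rw [Derivation.leibniz, Derivation.leibniz_pow]
  simp only [smul_eq_mul, nsmul_eq_mul]
  refine dvd_add (Dvd.dvd.mul_right (pow_dvd_pow q (Nat.sub_le _ _)) _) ?_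
  exact Dvd.dvd.mul_left (Dvd.dvd.mul_left (Dvd.dvd.mul_right dvd_rfl _) _) _

theorem deriv_fermat {R A : Type*} [CommRing R] [CommRing A] [Algebra R A] (D : Derivation R A A)
    (x : Fin 3 → A) :
    D (x 0 ^ 20 + x 1 ^ 20 + x 2 ^ 20) =
      20 * (x 0 ^ 19 * D (x 0) + x 1 ^ 19 * D (x 1) + x 2 ^ 19 * D (x 2)) := by
  simp only [map_add, Derivation.leibniz_pow, smul_eq_mul, nsmul_eq_mul]
  push_cast
  ring

/-- The cross product. -/
def crs {A : Type*} [CommRing A] (a b : Fin 3 → A) : Fin 3 → A :=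
  ![a 1 * b 2 - a 2 * b 1, a 2 * b 0 - a 0 * b 2, a 0 * b 1 - a 1 * b 0]

/-- The scalar product. -/
def dt {A : Type*} [CommRing A] (a b : Fin 3 → A) : A := a 0 * b 0 + a 1 * b 1 + a 2 * b 2

theorem cramer {A : Type*} [CommRing A] (u a b c : Fin 3 → A) (i : Fin 3) :
    u i * dt (crs a b) c = dt u a * crs b c i + dt u b * crs c a i + dt u c * crs a b i := by
  fin_cases i <;> simp [dt, crs] <;> ring

theorem crs_deg {a b : Fin 3 → ℂ[X]} {e : ℕ} (ha : ∀ i, (a i).natDegree ≤ e)
    (hb : ∀ i, (b i).natDegree ≤ e) (i : Fin 3) : (crs a b i).natDegree ≤ 2 * e := by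
  have h : ∀ j k l m, (a j * b k - a l * b m).natDegree ≤ 2 * e := by
    intro j k l m
    refine (natDegree_sub_le _ _).trans (max_le ?_ ?_)
    · exact natDegree_mul_le.trans (by have := ha j; have := hb k; omega)
    · exact natDegree_mul_le.trans (by have := ha l; have := hb m; omega)
  fin_cases i <;> exact h _ _ _ _

theorem count_simple {G Δ : ℂ[X]} (hΔ : Δ ≠ 0)
    (h : ∀ a, G.IsRoot a → (X - C a) ^ (G.rootMultiplicity a - 1) ∣ Δ) :
    G.natDegree ≤ 2 * Δ.natDegree +
      (G.roots.toFinset.filter fun a => G.rootMultiplicity a = 1).card := by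
  classical
  have h1 : G.natDegree = ∑ a ∈ G.roots.toFinset, G.rootMultiplicity a := by
    rw [← IsAlgClosed.card_roots_eq_natDegree, ← Multiset.toFinset_sum_count_eq]
    exact Finset.sum_congr rfl fun a _ => count_roots G
  have h2 : ∑ a ∈ G.roots.toFinset, (G.rootMultiplicity a - 1) ≤ Δ.natDegree := by
    calc ∑ a ∈ G.roots.toFinset, (G.rootMultiplicity a - 1)
        ≤ ∑ a ∈ G.roots.toFinset, Δ.roots.count a := by
          refine Finset.sum_le_sum fun a ha => ?_
          rw [count_roots, le_rootMultiplicity_iff hΔ]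
          exact h a (isRoot_of_mem_roots (Multiset.mem_toFinset.1 ha))
      _ ≤ ∑ a ∈ G.roots.toFinset ∪ Δ.roots.toFinset, Δ.roots.count a :=
          Finset.sum_le_sum_of_subset Finset.subset_union_left
      _ = Δ.roots.card := Multiset.sum_count_eq_card fun a ha =>
          Finset.mem_union_right _ (Multiset.mem_toFinset.2 ha)
      _ ≤ Δ.natDegree := card_roots' Δ
  rw [h1, Finset.card_filter]
  refine le_trans ?_ (Nat.add_le_add_right (Nat.mul_le_mul_left 2 h2) _)
  rw [Finset.mul_sum, ← Finset.sum_add_distrib]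
  refine Finset.sum_le_sum fun a _ => ?_
  split_ifs <;> omega

/-- The main count. -/
theorem many_simple (f : RatMap) (δ : Derivation ℤ ℂ[X] ℂ[X])
    (hδ : ∀ P, (δ P).natDegree ≤ P.natDegree)
    (hΔ : dt (crs f.x fun i => derivative (f.x i)) (fun i => δ (f.x i)) ≠ 0) :
    14 ≤ ((f.x 0 ^ 20 + f.x 1 ^ 20 + f.x 2 ^ 20).roots.toFinset.filter fun a =>
      (f.x 0 ^ 20 + f.x 1 ^ 20 + f.x 2 ^ 20).rootMultiplicity a = 1).card := by
  set G := f.x 0 ^ 20 + f.x 1 ^ 20 + f.x 2 ^ 20 with hG
  set Δ := dt (crs f.x fun i => derivative (f.x i)) (fun i => δ (f.x i)) with hΔd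
  have key : ∀ i, 20 * f.x i ^ 19 * Δ =
      20 * G * crs (fun i => derivative (f.x i)) (fun i => δ (f.x i)) i +
        derivative G * crs (fun i => δ (f.x i)) f.x i +
        δ G * crs f.x (fun i => derivative (f.x i)) i := by
    intro i
    have h1 := cramer (fun i => f.x i ^ 19) f.x (fun i => derivative (f.x i))
      (fun i => δ (f.x i)) i
    have h2 : derivative G = 20 * (f.x 0 ^ 19 * derivative (f.x 0) +
        f.x 1 ^ 19 * derivative (f.x 1) + f.x 2 ^ 19 * derivative (f.x 2)) :=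
      deriv_fermat (derivative' (R := ℂ)) f.x
    rw [h2, hG, deriv_fermat δ f.x, mul_assoc, hΔd, h1]
    simp only [dt]
    ring
  have hdvd : ∀ a, G.IsRoot a → (X - C a) ^ (G.rootMultiplicity a - 1) ∣ Δ := by
    intro a _
    obtain ⟨i, hi⟩ := f.base_fin a
    have h0 := pow_rootMultiplicity_dvd G a
    have h1 : (X - C a) ^ (G.rootMultiplicity a - 1) ∣ G :=
      (pow_dvd_pow _ (Nat.sub_le _ _)).trans h0
    have h2 : (X - C a) ^ (G.rootMultiplicity a - 1) ∣ derivative G :=
      dvd_deriv (derivative' (R := ℂ)) h0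
    have h3 := dvd_deriv δ h0
    have h4 : (X - C a) ^ (G.rootMultiplicity a - 1) ∣ 20 * f.x i ^ 19 * Δ := by
      rw [key i]
      exact dvd_add (dvd_add ((h1.mul_left _).mul_right _) (h2.mul_right _)) (h3.mul_right _)
    refine IsCoprime.dvd_of_dvd_mul_left (IsCoprime.pow_left ?_) h4
    rw [(irreducible_X_sub_C a).coprime_iff_not_dvd, dvd_iff_isRoot]
    simp [hi]
  have hcount := count_simple hΔ hdvd
  obtain ⟨i, hi⟩ := f.base_inf
  have hdeg : (f.x i).natDegree = f.e := le_antisymm (f.deg_le i) (le_natDegree_of_ne_zero hi)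
  have hx0 : f.x i ≠ 0 := by
    rintro h
    rw [h] at hi
    exact hi (coeff_zero _)
  have h20 : (20 : ℂ[X]) = C 20 := rfl
  have hl : (20 * f.x i ^ 19 * Δ).natDegree = 19 * f.e + Δ.natDegree := by
    rw [mul_assoc, h20, natDegree_C_mul (by norm_num), natDegree_mul (pow_ne_zero _ hx0) hΔ,
      natDegree_pow, hdeg]
  have hd1 : ∀ j, (derivative (f.x j)).natDegree ≤ f.e := fun j =>
    (natDegree_derivative_le _).trans ((Nat.sub_le _ _).trans (f.deg_le j))
  have hd2 : ∀ j, (δ (f.x j)).natDegree ≤ f.e := fun j => (hδ _).trans (f.deg_le j)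
  have hr : (20 * f.x i ^ 19 * Δ).natDegree ≤ G.natDegree + 2 * f.e := by
    rw [key i]
    refine (natDegree_add_le _ _).trans (max_le ((natDegree_add_le _ _).trans (max_le ?_ ?_)) ?_)
    · refine natDegree_mul_le.trans (add_le_add ?_ (crs_deg hd1 hd2 i))
      rw [h20]
      exact natDegree_C_mul_le _ _
    · exact natDegree_mul_le.trans (add_le_add
        ((natDegree_derivative_le _).trans (Nat.sub_le _ _)) (crs_deg hd2 f.deg_le i))
    · exact natDegree_mul_le.trans (add_le_add (hδ _) (crs_deg f.deg_le hd1 i))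
  have hp : ∀ j, (f.x j ^ 20).natDegree ≤ 20 * f.e := fun j =>
    natDegree_pow_le.trans (Nat.mul_le_mul_left _ (f.deg_le j))
  have hg : G.natDegree ≤ 20 * f.e :=
    (natDegree_add_le _ _).trans (max_le ((natDegree_add_le _ _).trans (max_le (hp 0) (hp 1)))
      (hp 2))
  have := f.one_le
  omega

/-- A derivation applied to the coefficients. -/
noncomputable def mc (δ : Derivation ℤ ℂ ℂ) : Derivation ℤ ℂ[X] ℂ[X] :=
  letI : Differential ℂ := ⟨δ⟩
  Differential.mapCoeffs

theorem mc_coeff (δ : Derivation ℤ ℂ ℂ) (P : ℂ[X]) (i : ℕ) : (mc δ P).coeff i = δ (P.coeff i) :=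
  rfl

theorem mc_deg (δ : Derivation ℤ ℂ ℂ) (P : ℂ[X]) : (mc δ P).natDegree ≤ P.natDegree := by
  rw [natDegree_le_iff_coeff_eq_zero]
  intro N hN
  rw [mc_coeff, coeff_eq_zero_of_natDegree_lt hN, map_zero]

theorem mc_eval (δ : Derivation ℤ ℂ ℂ) (P : ℂ[X]) (a : ℂ) :
    δ (P.eval a) = (mc δ P).eval a + (derivative P).eval a * δ a := by
  let _ : Differential ℂ := ⟨δ⟩
  have := Differential.deriv_aeval_eq a P
  simp only [coe_aeval_eq_eval] at this
  exact this

theorem crs_ne_zero (f : RatMap) : ∃ i, crs f.x (fun i => derivative (f.x i)) i ≠ 0 := by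
  by_contra h
  push Not at h
  have hw : ∀ i j, f.x i * derivative (f.x j) = f.x j * derivative (f.x i) := by
    have h0 := h 0
    have h1 := h 1
    have h2 := h 2
    simp only [crs, Matrix.cons_val_zero, Matrix.cons_val_one, Matrix.cons_val, sub_eq_zero]
      at h0 h1 h2
    intro i j
    fin_cases i <;> fin_cases j
    exacts [rfl, h2, h1.symm, h2.symm, rfl, h0, h1, h0.symm, rfl]
  obtain ⟨i, hi⟩ := f.base_inf
  have hdeg : (f.x i).natDegree = f.e := le_antisymm (f.deg_le i) (le_natDegree_of_ne_zero hi)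
  have he := f.one_le
  obtain ⟨a, ha⟩ := IsAlgClosed.exists_root (f.x i) (by
    intro h0
    rw [natDegree_eq_zero_iff_degree_le_zero.2 h0.le] at hdeg
    omega)
  obtain ⟨j, hj⟩ := f.base_fin a
  have hx0 : f.x i ≠ 0 := by
    rintro h
    rw [h] at hi
    exact hi (coeff_zero _)
  have hd0 : derivative (f.x i) ≠ 0 := by
    intro h0
    rw [derivative_eq_zero.1 h0] at hdeg
    omega
  have h1 : (X - C a) ^ (f.x i).rootMultiplicity a ∣ f.x j * derivative (f.x i) := by
    rw [← hw i j]
    exact (pow_rootMultiplicity_dvd _ a).mul_right _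
  have h2 : (X - C a) ^ (f.x i).rootMultiplicity a ∣ derivative (f.x i) := by
    refine IsCoprime.dvd_of_dvd_mul_left (IsCoprime.pow_left ?_) h1
    rw [(irreducible_X_sub_C a).coprime_iff_not_dvd, dvd_iff_isRoot]
    exact hj
  rw [← le_rootMultiplicity_iff hd0, derivative_rootMultiplicity_of_root ha] at h2
  have h3 := (rootMultiplicity_pos hx0).2 ha
  omega

theorem dt_crs_left {A : Type*} [CommRing A] (a b : Fin 3 → A) : dt (crs a b) a = 0 := by
  simp [dt, crs]; ring

theorem dt_crs_right {A : Type*} [CommRing A] (a b : Fin 3 → A) : dt (crs a b) b = 0 := by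
  simp [dt, crs]; ring

theorem coeff_three {a b c : ℂ[X]} {e : ℕ} (ha : a.natDegree ≤ e) (hb : b.natDegree ≤ e)
    (hc : c.natDegree ≤ e) : (a * b * c).coeff (e + e + e) = a.coeff e * b.coeff e * c.coeff e := by
  rw [coeff_mul_add_eq_of_natDegree_le (natDegree_mul_le.trans (add_le_add ha hb)) hc,
    coeff_mul_add_eq_of_natDegree_le ha hb]

theorem det_eval (y : Fin 3 → Fin 3 → ℂ[X]) (a l : ℂ)
    (h : ∀ j i, (y j i).eval a = l * if i = j then 1 else 0) :
    (dt (crs (y 0) (y 1)) (y 2)).eval a = l ^ 3 := by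
  simp [dt, crs, h]
  ring

theorem det_coeff (y : Fin 3 → Fin 3 → ℂ[X]) (e : ℕ) (l : ℂ) (hd : ∀ j i, (y j i).natDegree ≤ e)
    (h : ∀ j i, (y j i).coeff e = l * if i = j then 1 else 0) :
    (dt (crs (y 0) (y 1)) (y 2)).coeff (e + e + e) = l ^ 3 := by
  have e1 : dt (crs (y 0) (y 1)) (y 2) = y 0 1 * y 1 2 * y 2 0 - y 0 2 * y 1 1 * y 2 0 +
      y 0 2 * y 1 0 * y 2 1 - y 0 0 * y 1 2 * y 2 1 + y 0 0 * y 1 1 * y 2 2 -
      y 0 1 * y 1 0 * y 2 2 := by
    simp [dt, crs]
    ring
  rw [e1]
  simp only [coeff_add, coeff_sub, coeff_three (hd _ _) (hd _ _) (hd _ _), h]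
  simp
  ring

theorem exists_delta (f : RatMap) (p : Fin 3 → ℂ) (D : Fin 3 → Derivation ℤ ℂ ℂ)
    (hD : ∀ i j, D i (p j) = if j = i then 1 else 0) (a : Option ℂ) (h : SamePt (f.val a) p) :
    ∃ j, dt (crs f.x fun i => derivative (f.x i)) (fun i => mc (D j) (f.x i)) ≠ 0 := by
  by_contra hc
  push Not at hc
  obtain ⟨l, hl, hv⟩ := h
  obtain ⟨i0, hi0⟩ := crs_ne_zero f
  have h1 := dt_crs_left f.x fun i => derivative (f.x i)
  have h2 := dt_crs_right f.x fun i => derivative (f.x i)
  generalize crs f.x (fun i => derivative (f.x i)) = n at hc hi0 h1 h2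
  have fin : ∀ y : Fin 3 → Fin 3 → ℂ[X], (∀ j, dt n (y j) = 0) →
      dt (crs (y 0) (y 1)) (y 2) = 0 := by
    intro y hy
    have := cramer n (y 0) (y 1) (y 2) i0
    rw [hy 0, hy 1, hy 2] at this
    simp only [zero_mul, add_zero] at this
    exact (mul_eq_zero.1 this).resolve_left hi0
  have hDv : ∀ j i, D j (f.val a i) = D j l / l * f.val a i + l * if i = j then 1 else 0 := by
    intro j i
    rw [hv, Pi.smul_apply, smul_eq_mul, Derivation.leibniz, hD, smul_eq_mul, smul_eq_mul]
    field_simp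
    ring
  cases a with
  | none =>
    have h3 := fin (fun j i => mc (D j) (f.x i) - C (D j l / l) * f.x i) (by
      intro j
      have := hc j
      simp only [dt] at this h1 ⊢
      linear_combination this - C (D j l / l) * h1)
    have hdeg : ∀ j i, (mc (D j) (f.x i) - C (D j l / l) * f.x i).natDegree ≤ f.e := fun j i =>
      (natDegree_sub_le _ _).trans (max_le ((mc_deg _ _).trans (f.deg_le i))
        ((natDegree_C_mul_le _ _).trans (f.deg_le i)))
    have hco : ∀ j i, (mc (D j) (f.x i) - C (D j l / l) * f.x i).coeff f.e =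
        l * if i = j then 1 else 0 := by
      intro j i
      have := hDv j i
      simp only [RatMap.val] at this
      rw [coeff_sub, coeff_C_mul, mc_coeff, this]
      ring
    have h4 := det_coeff (fun j i => mc (D j) (f.x i) - C (D j l / l) * f.x i) f.e l hdeg hco
    rw [h3, coeff_zero] at h4
    exact pow_ne_zero 3 hl h4.symm
  | some a =>
    have h3 := fin (fun j i => mc (D j) (f.x i) + C (D j a) * derivative (f.x i) -
        C (D j l / l) * f.x i) (by
      intro j
      have := hc j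
      simp only [dt] at this h1 h2 ⊢
      linear_combination this + C (D j a) * h2 - C (D j l / l) * h1)
    have hco : ∀ j i, (mc (D j) (f.x i) + C (D j a) * derivative (f.x i) -
        C (D j l / l) * f.x i).eval a = l * if i = j then 1 else 0 := by
      intro j i
      have := hDv j i
      simp only [RatMap.val] at this
      rw [mc_eval] at this
      simp only [eval_sub, eval_add, eval_mul, eval_C]
      linear_combination this
    have h4 := det_eval (fun j i => mc (D j) (f.x i) + C (D j a) * derivative (f.x i) -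
        C (D j l / l) * f.x i) a l hco
    rw [h3, eval_zero] at h4
    exact pow_ne_zero 3 hl h4.symm

/-- The Fermat curve of degree twenty. -/
noncomputable def fermat : MvPolynomial (Fin 3) ℂ :=
  MvPolynomial.X 0 ^ 20 + MvPolynomial.X 1 ^ 20 + MvPolynomial.X 2 ^ 20

theorem fermat_smooth : SmoothCurve fermat 20 := by
  refine ⟨by norm_num, ?_, fun p hp _ => ?_⟩
  · exact ((MvPolynomial.isHomogeneous_X_pow _ _).add (MvPolynomial.isHomogeneous_X_pow _ _)).add
      (MvPolynomial.isHomogeneous_X_pow _ _)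
  · obtain ⟨i, hi⟩ := Function.ne_iff.1 hp
    refine ⟨i, ?_⟩
    have hi' : p i ≠ 0 := hi
    fin_cases i <;> simpa [fermat, Derivation.leibniz_pow, MvPolynomial.pderiv_X] using hi'

theorem not_uniruled : ¬ Uniruled fermat 20 (1 / 7) := by
  classical
  rintro ⟨Q, hQ, h⟩
  obtain ⟨p, D, h1, h2⟩ := exists_generic Q fun n => (hQ n).1
  have hp : p ≠ 0 := by
    intro h0
    have := h2 0 0
    rw [h0] at this
    simp at this
  obtain ⟨f, ⟨-, hG, c', hc1, hc2, hc3⟩, a, ha⟩ := h p hp h1
  obtain ⟨j, hj⟩ := exists_delta f p D h2 a ha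
  have h3 := many_simple f (mc (D j)) (mc_deg _) hj
  have hpull : f.pull fermat = f.x 0 ^ 20 + f.x 1 ^ 20 + f.x 2 ^ 20 := by
    simp [RatMap.pull, fermat]
  rw [← hpull] at h3
  set S := (f.pull fermat).roots.toFinset.filter fun a => (f.pull fermat).rootMultiplicity a = 1
    with hS
  have h4 : ∀ b ∈ S.map Function.Embedding.some, (1 / 7 : ℚ) ≤ c' b := by
    intro b hb0
    obtain ⟨b, hb, rfl⟩ := Finset.mem_map.1 hb0
    rw [hS, Finset.mem_filter, Multiset.mem_toFinset] at hb
    have h5 : MvPolynomial.eval (f.val (some b)) fermat = 0 := by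
      have := isRoot_of_mem_roots hb.1
      rw [hpull] at this
      simpa [fermat, RatMap.val] using this
    have h6 := hc2 (some b) h5
    simp only [RatMap.ord, hb.2] at h6
    simp only [Function.Embedding.some_apply]
    norm_num at h6
    linarith
  have h5 : ∑ b ∈ S.map Function.Embedding.some, c' b ≤ c'.sum fun _ r => r := by
    refine Finset.sum_le_sum_of_subset_of_nonneg (fun b hb => ?_) fun b _ _ => (hc1 b).1
    rw [Finsupp.mem_support_iff]
    have := h4 b hb
    intro h0
    rw [h0] at this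
    norm_num at this
  have h6 := Finset.card_nsmul_le_sum _ _ _ h4
  rw [Finset.card_map, nsmul_eq_mul] at h6
  have h7 : (14 : ℚ) ≤ S.card := by exact_mod_cast h3
  linarith

theorem not_psef {r : ℝ} (hr : r < 0) : ¬ PseudoEffective r := by
  intro h
  have : r ∈ Set.Ici (0 : ℝ) := by
    refine closure_minimal ?_ isClosed_Ici h
    rintro s ⟨Q, n, k, -, -, -, rfl⟩
    rw [Set.mem_Ici]
    positivity
  exact absurd this (not_le.2 hr)

theorem weakly {d : ℕ} {c : ℚ} (h : -3 + c * d < 0) : WeaklyUniruled d c := by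
  refine ⟨fun _ => MvPolynomial.X 0, fun _ => ⟨MvPolynomial.X_ne_zero _, 1,
    MvPolynomial.isHomogeneous_X _ _⟩, fun p _ hp => ?_⟩
  have hp0 : p 0 ≠ 0 := by simpa using hp 0
  refine ⟨⟨1, ![C (p 0), X + C (p 1), C (p 2)], le_rfl, fun i => ?_, ⟨1, ?_⟩,
    fun a => ⟨0, ?_⟩⟩, ⟨{none}, ?_⟩, ⟨some 0, 1, one_ne_zero, ?_⟩, by simpa using h⟩
  · fin_cases i <;> simp
  · simp
  · simpa using hp0
  · rintro (_ | a) ha (_ | b) hb ⟨l, -, hl⟩
    · rfl
    · simp at ha
    · simp at hb
    · have h0 := congrFun hl 0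
      have h1 := congrFun hl 1
      simp [RatMap.val] at h0 h1
      have h2 : l = 1 := mul_right_cancel₀ hp0 (by rw [one_mul]; exact h0.symm)
      rw [h2, one_mul] at h1
      rw [add_right_cancel h1]
  · funext i
    fin_cases i <;> simp [RatMap.val]

end Pool.Agent.H217Z.Orb
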