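import Mathlib

set_option autoImplicit false

namespace Pool.Agent.H217Z.Paging

universe u

/-- A deterministic paging algorithm over the page universe `α`: an eviction rule.
`evict t seen M` is the page evicted when request number `t` (counted from `0`) is a fault and the
memory `M` is full; `seen` is the list of the requests known to the algorithm at that moment. -/
structure Alg (α : Type u) where
  evict : ℕ → List α → Finset α → α
  evict_mem : ∀ t seen M, M.Nonempty → evict t seen M ∈ M

variable {α : Type u} [DecidableEq α]

/-- Contents of the fast memory (size `k`, initial contents `I`) after the first `t` requests of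
`σ`, when `A` is run with lookahead `i`: while serving request number `t` it is shown the requests
number `0, ..., t + i` (those that exist) and nothing further. -/
def mem (k : ℕ) (I : Finset α) (i : ℕ) (A : Alg α) (σ : List α) : ℕ → Finset α
  | 0 => I
  | t + 1 =>
    match σ[t]? with
    | none => mem k I i A σ t
    | some r =>
      if r ∈ mem k I i A σ t then mem k I i A σ t
      else if (mem k I i A σ t).card < k then insert r (mem k I i A σ t)
      else insert r ((mem k I i A σ t).erase (A.evict t (σ.take (t + 1 + i)) (mem k I i A σ t)))

/-- The number of faults of `A`, run with lookahead `i`, on the request sequence `σ`. -/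
def cost (k : ℕ) (I : Finset α) (i : ℕ) (A : Alg α) (σ : List α) : ℕ :=
  (Finset.univ.filter fun t : Fin σ.length => σ.get t ∉ mem k I i A σ t).card

/-- `r(A,B)` for `A` run with lookahead `i` and `B` run with lookahead `l`: the infimum (in the
extended reals) of all real `c` such that `cost A σ ≤ c * cost B σ + b` for some constant `b` and
every `σ`. -/
noncomputable def ratio (k : ℕ) (I : Finset α) (i : ℕ) (A : Alg α) (l : ℕ) (B : Alg α) : EReal :=
  sInf {x : EReal | ∃ c b : ℝ, x = (c : EReal) ∧
    ∀ σ : List α, (cost k I i A σ : ℝ) ≤ c * (cost k I l B σ : ℝ) + b}

/-- The comparative ratio `c(L_i, L_l) = sup_B inf_A r(A,B)`. -/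
noncomputable def compRatio (k : ℕ) (I : Finset α) (i l : ℕ) : EReal :=
  ⨆ B : Alg α, ⨅ A : Alg α, ratio k I i A l B

end Pool.Agent.H217Z.Paging
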