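import Mathlib
import Pool.Agent.H217Z.PagingDefs

set_option autoImplicit false

namespace Pool.Agent.H217Z.Paging

open Finset

universe u
variable {α : Type u} [DecidableEq α]

/-- The pages requested at the positions `a ≤ j < b`. -/
def Rq (σ : List α) (a b : ℕ) : Finset α := ((σ.take b).drop a).toFinset

theorem mem_Rq {σ : List α} {a b : ℕ} {x : α} :
    x ∈ Rq σ a b ↔ ∃ j, a ≤ j ∧ j < b ∧ σ[j]? = some x := by
  unfold Rq
  rw [List.mem_toFinset, List.mem_iff_getElem?]
  constructor
  · rintro ⟨j, hj⟩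
    rw [List.getElem?_drop, List.getElem?_take] at hj
    split_ifs at hj with h
    exact ⟨a + j, by omega, h, hj⟩
  · rintro ⟨j, h1, h2, h3⟩
    refine ⟨j - a, ?_⟩
    rw [List.getElem?_drop, List.getElem?_take, show a + (j - a) = j by omega, if_pos h2, h3]

theorem Rq_take (σ : List α) {a b m : ℕ} (h : b ≤ m) : Rq (σ.take m) a b = Rq σ a b := by
  unfold Rq
  rw [List.take_take, min_eq_left h]

theorem Rq_self (σ : List α) (a : ℕ) : Rq σ a a = ∅ := by
  ext x
  simp only [mem_Rq, notMem_empty, iff_false]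
  rintro ⟨j, h1, h2, -⟩
  omega

theorem Rq_mono (σ : List α) {a b a' b' : ℕ} (h1 : a' ≤ a) (h2 : b ≤ b') :
    Rq σ a b ⊆ Rq σ a' b' := by
  intro x hx
  rw [mem_Rq] at hx ⊢
  obtain ⟨j, h3, h4, h5⟩ := hx
  exact ⟨j, by omega, by omega, h5⟩

theorem Rq_left {σ : List α} {a b : ℕ} {r : α} (hr : σ[a]? = some r) (h : a < b) :
    Rq σ a b = insert r (Rq σ (a + 1) b) := by
  ext x
  simp only [mem_insert, mem_Rq]
  constructor
  · rintro ⟨j, h1, h2, h3⟩
    rcases Nat.eq_or_lt_of_le h1 with rfl | h4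
    · left
      rw [hr] at h3
      exact (Option.some.inj h3).symm
    · right
      exact ⟨j, h4, h2, h3⟩
  · rintro (rfl | ⟨j, h1, h2, h3⟩)
    · exact ⟨a, le_rfl, h, hr⟩
    · exact ⟨j, by omega, h2, h3⟩

theorem Rq_right {σ : List α} {a b : ℕ} {r : α} (hr : σ[b]? = some r) (h : a ≤ b) :
    Rq σ a (b + 1) = insert r (Rq σ a b) := by
  ext x
  simp only [mem_insert, mem_Rq]
  constructor
  · rintro ⟨j, h1, h2, h3⟩
    rcases Nat.eq_or_lt_of_le (Nat.lt_succ_iff.1 h2) with rfl | h4
    · left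
      rw [hr] at h3
      exact (Option.some.inj h3).symm
    · right
      exact ⟨j, h1, h4, h3⟩
  · rintro (rfl | ⟨j, h1, h2, h3⟩)
    · exact ⟨b, h, Nat.lt_succ_self _, hr⟩
    · exact ⟨j, h1, by omega, h3⟩

section step

variable (k : ℕ) (I : Finset α) (i : ℕ) (A : Alg α) (σ : List α)

theorem mem_zero : mem k I i A σ 0 = I := rfl

theorem mem_none {t : ℕ} (h : σ[t]? = none) : mem k I i A σ (t + 1) = mem k I i A σ t := by
  rw [mem, h]

theorem mem_hit {t : ℕ} {r : α} (h : σ[t]? = some r) (hr : r ∈ mem k I i A σ t) :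
    mem k I i A σ (t + 1) = mem k I i A σ t := by
  rw [mem, h]
  simp only [if_pos hr]

theorem mem_load {t : ℕ} {r : α} (h : σ[t]? = some r) (hr : r ∉ mem k I i A σ t)
    (hc : (mem k I i A σ t).card < k) :
    mem k I i A σ (t + 1) = insert r (mem k I i A σ t) := by
  rw [mem, h]
  simp only [if_neg hr, if_pos hc]

theorem mem_evict {t : ℕ} {r : α} (h : σ[t]? = some r) (hr : r ∉ mem k I i A σ t)
    (hc : ¬ (mem k I i A σ t).card < k) :
    mem k I i A σ (t + 1) =
      insert r ((mem k I i A σ t).erase (A.evict t (σ.take (t + 1 + i)) (mem k I i A σ t))) := by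
  rw [mem, h]
  simp only [if_neg hr, if_neg hc]

theorem mem_take {m : ℕ} : ∀ {t : ℕ}, t + i ≤ m → mem k I i A (σ.take m) t = mem k I i A σ t
  | 0, _ => rfl
  | t + 1, h => by
    have ih := mem_take (m := m) (t := t) (by omega)
    rw [mem, mem, ih, List.getElem?_take, if_pos (show t < m by omega), List.take_take,
      min_eq_left (show t + 1 + i ≤ m by omega)]

/-- The three kinds of step. -/
theorem step_cases (hk : 1 ≤ k) {t : ℕ} {r : α} (h : σ[t]? = some r) :
    (r ∈ mem k I i A σ t ∧ mem k I i A σ (t + 1) = mem k I i A σ t) ∨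
    (r ∉ mem k I i A σ t ∧ (mem k I i A σ t).card < k ∧
      mem k I i A σ (t + 1) = insert r (mem k I i A σ t)) ∨
    (r ∉ mem k I i A σ t ∧ k ≤ (mem k I i A σ t).card ∧
      A.evict t (σ.take (t + 1 + i)) (mem k I i A σ t) ∈ mem k I i A σ t ∧
      mem k I i A σ (t + 1) =
        insert r ((mem k I i A σ t).erase (A.evict t (σ.take (t + 1 + i)) (mem k I i A σ t)))) := by
  by_cases hr : r ∈ mem k I i A σ t
  · exact Or.inl ⟨hr, mem_hit k I i A σ h hr⟩
  · by_cases hc : (mem k I i A σ t).card < k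
    · exact Or.inr (Or.inl ⟨hr, hc, mem_load k I i A σ h hr hc⟩)
    · refine Or.inr (Or.inr ⟨hr, by omega, A.evict_mem _ _ _ ?_, mem_evict k I i A σ h hr hc⟩)
      rw [← card_pos]; omega

theorem card_evict {M : Finset α} {r p : α} (hr : r ∉ M) (hp : p ∈ M) :
    (insert r (M.erase p)).card = M.card := by
  rw [card_insert_of_notMem (fun h => hr (mem_of_mem_erase h)), card_erase_of_mem hp]
  have : 0 < M.card := card_pos.2 ⟨p, hp⟩
  omega

theorem card_le (hk : 1 ≤ k) (hI : I.card ≤ k) : ∀ t, (mem k I i A σ t).card ≤ k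
  | 0 => hI
  | t + 1 => by
    have ih := card_le hk hI t
    cases h : σ[t]? with
    | none => rw [mem_none k I i A σ h]; exact ih
    | some r =>
      rcases step_cases k I i A σ hk h with ⟨-, h2⟩ | ⟨h1, h2, h3⟩ | ⟨h1, -, h3, h4⟩
      · rw [h2]; exact ih
      · rw [h3, card_insert_of_notMem h1]; omega
      · rw [h4, card_evict h1 h3]; exact ih

theorem req_mem (hk : 1 ≤ k) {t : ℕ} {r : α} (h : σ[t]? = some r) : r ∈ mem k I i A σ (t + 1) := by
  rcases step_cases k I i A σ hk h with ⟨h1, h2⟩ | ⟨-, -, h3⟩ | ⟨-, -, -, h4⟩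
  · rw [h2]; exact h1
  · rw [h3]; exact mem_insert_self _ _
  · rw [h4]; exact mem_insert_self _ _

theorem succ_subset (hk : 1 ≤ k) {t : ℕ} {r : α} (h : σ[t]? = some r) :
    mem k I i A σ (t + 1) ⊆ insert r (mem k I i A σ t) := by
  rcases step_cases k I i A σ hk h with ⟨-, h2⟩ | ⟨-, -, h3⟩ | ⟨-, -, -, h4⟩
  · rw [h2]; exact subset_insert _ _
  · rw [h3]
  · rw [h4]; exact insert_subset_insert _ (erase_subset _ _)

/-- Fault indicator of step `t`. -/
def flt (t : ℕ) : ℕ :=
  match σ[t]? with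
  | none => 0
  | some r => if r ∈ mem k I i A σ t then 0 else 1

theorem flt_some {t : ℕ} {r : α} (h : σ[t]? = some r) :
    flt k I i A σ t = if r ∈ mem k I i A σ t then 0 else 1 := by
  rw [flt, h]

theorem cost_eq : cost k I i A σ = ∑ t ∈ range σ.length, flt k I i A σ t := by
  unfold cost
  rw [card_filter, ← Fin.sum_univ_eq_sum_range (fun t => flt k I i A σ t)]
  refine sum_congr rfl fun t _ => ?_
  rw [flt_some k I i A σ (r := σ.get t) (by simp)]
  split_ifs <;> rfl

theorem card_lost (hk : 1 ≤ k) {t : ℕ} {r : α} (h : σ[t]? = some r) :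
    (mem k I i A σ t \ mem k I i A σ (t + 1)).card ≤ flt k I i A σ t := by
  rw [flt_some k I i A σ h]
  rcases step_cases k I i A σ hk h with ⟨h1, h2⟩ | ⟨h1, -, h3⟩ | ⟨h1, -, -, h4⟩
  · rw [h2]; simp
  · rw [h3, sdiff_eq_empty_iff_subset.2 (subset_insert _ _)]; simp
  · rw [h4, if_neg h1]
    refine le_trans (card_le_card (t := {A.evict t (σ.take (t + 1 + i)) (mem k I i A σ t)}) ?_)
      (by simp)
    intro x hx
    simp only [mem_sdiff, mem_insert, mem_erase, not_or, not_and] at hx
    rw [mem_singleton]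
    by_contra hne
    exact hx.2.2 hne hx.1

end step

/-- Two runs from the same initial contents have memories of the same size, equal until full. -/
theorem sync (k : ℕ) (I : Finset α) (hk : 1 ≤ k) (hI : I.card ≤ k) (i : ℕ) (A : Alg α) (l : ℕ)
    (B : Alg α) (σ : List α) : ∀ t, (mem k I i A σ t).card = (mem k I l B σ t).card ∧
      ((mem k I i A σ t).card < k → mem k I i A σ t = mem k I l B σ t)
  | 0 => ⟨rfl, fun _ => rfl⟩
  | t + 1 => by
    obtain ⟨ih1, ih2⟩ := sync k I hk hI i A l B σ t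
    have cA := card_le k I i A σ hk hI t
    cases h : σ[t]? with
    | none => rw [mem_none k I i A σ h, mem_none k I l B σ h]; exact ⟨ih1, ih2⟩
    | some r =>
      by_cases hc : (mem k I i A σ t).card < k
      · have e := ih2 hc
        have : mem k I i A σ (t + 1) = mem k I l B σ (t + 1) := by
          by_cases hr : r ∈ mem k I i A σ t
          · rw [mem_hit k I i A σ h hr, mem_hit k I l B σ h (e ▸ hr), e]
          · rw [mem_load k I i A σ h hr hc, mem_load k I l B σ h (e ▸ hr) (e ▸ hc), e]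
        exact ⟨by rw [this], fun _ => this⟩
      · have h1 : (mem k I i A σ (t + 1)).card = k := by
          rcases step_cases k I i A σ hk h with ⟨-, h2⟩ | ⟨-, h2, -⟩ | ⟨h1, -, h3, h4⟩
          · rw [h2]; omega
          · omega
          · rw [h4, card_evict h1 h3]; omega
        have h2 : (mem k I l B σ (t + 1)).card = k := by
          rcases step_cases k I l B σ hk h with ⟨-, h2⟩ | ⟨-, h2, -⟩ | ⟨h1, -, h3, h4⟩
          · rw [h2]; omega
          · omega
          · rw [h4, card_evict h1 h3]; omega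
        exact ⟨by omega, fun h => by omega⟩

omit [DecidableEq α] in
theorem exists_req {σ : List α} {t : ℕ} (h : t < σ.length) : ∃ r, σ[t]? = some r :=
  ⟨σ[t], List.getElem?_eq_getElem h⟩

end Pool.Agent.H217Z.Paging
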