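import Mathlib
import Pool.Agent.H217Z.PagingBasic

set_option autoImplicit false

namespace Pool.Agent.H217Z.Paging

open Finset

universe u
variable {α : Type u} [DecidableEq α]

/-- One more than the position of the last request to `p` before time `t`, and `0` if none. -/
def lst (σ : List α) : ℕ → α → ℕ
  | 0, _ => 0
  | t + 1, p => if σ[t]? = some p then t + 1 else lst σ t p

theorem lst_le (σ : List α) (p : α) : ∀ t, lst σ t p ≤ t
  | 0 => le_rfl
  | t + 1 => by
    have := lst_le σ p t
    rw [lst]
    split_ifs <;> omega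

theorem lst_take (σ : List α) (p : α) (m : ℕ) : ∀ t, t ≤ m → lst (σ.take m) t p = lst σ t p
  | 0, _ => rfl
  | t + 1, h => by
    rw [lst, lst, lst_take σ p m t (by omega), List.getElem?_take, if_pos (show t < m by omega)]

/-- Least recently used. -/
noncomputable def lru (B : Alg α) : Alg α where
  evict t seen M := by
    classical
    exact if h : M.Nonempty then (exists_min_image M (lst seen t) h).choose
      else B.evict t seen M
  evict_mem t seen M h := by
    simp only [dif_pos h]
    exact (exists_min_image M (lst seen t) h).choose_spec.1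

theorem lru_spec (B : Alg α) (i t : ℕ) (σ : List α) {M : Finset α} (h : M.Nonempty) :
    ∀ x ∈ M, lst σ t ((lru B).evict t (σ.take (t + 1 + i)) M) ≤ lst σ t x := by
  intro x hx
  have := (exists_min_image M (lst (σ.take (t + 1 + i)) t) h).choose_spec.2 x hx
  rw [lst_take _ _ _ _ (by omega), lst_take _ _ _ _ (by omega)] at this
  simpa only [lru, dif_pos h] using this

/-- Rank of a page in the memory `M`. -/
def rk (σ : List α) (t : ℕ) (M : Finset α) (p : α) : ℕ :=
  (M.filter fun x => lst σ t x ≤ lst σ t p).card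

theorem rk_step {σ : List α} {t : ℕ} {r p : α} (hr : σ[t]? = some r) (hp : p ≠ r)
    {M M' : Finset α} (h : M' ⊆ insert r M) :
    M'.filter (fun x => lst σ (t + 1) x ≤ lst σ (t + 1) p) ⊆
      M.filter fun x => lst σ t x ≤ lst σ t p := by
  intro x hx
  rw [mem_filter] at hx ⊢
  obtain ⟨h1, h2⟩ := hx
  have e1 : lst σ (t + 1) p = lst σ t p := by
    rw [lst, hr, if_neg (fun h => hp (Option.some.inj h).symm)]
  have hxr : x ≠ r := by
    rintro rfl
    have e2 : lst σ (t + 1) x = t + 1 := by rw [lst, hr, if_pos rfl]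
    have := lst_le σ p t
    omega
  have e2 : lst σ (t + 1) x = lst σ t x := by
    rw [lst, hr, if_neg (fun h => hxr (Option.some.inj h).symm)]
  exact ⟨(mem_insert.1 (h h1)).resolve_left hxr, by omega⟩

section main

variable {k : ℕ} {I : Finset α} (i l : ℕ) (B : Alg α) (σ : List α)

theorem lru_step (hk : 1 ≤ k) (hI : I.card ≤ k) {t : ℕ} (ht : t < σ.length) :
    flt k I i (lru B) σ t + ∑ p ∈ mem k I i (lru B) σ (t + 1) \ mem k I l B σ (t + 1),
        rk σ (t + 1) (mem k I i (lru B) σ (t + 1)) p ≤
      k * flt k I l B σ t + ∑ p ∈ mem k I i (lru B) σ t \ mem k I l B σ t,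
        rk σ t (mem k I i (lru B) σ t) p := by
  obtain ⟨r, hr⟩ := exists_req ht
  have hrB := req_mem k I l B σ hk hr
  have hsub := succ_subset k I i (lru B) σ hk hr
  have hcA := card_le k I i (lru B) σ hk hI t
  have hcB := card_le k I l B σ hk hI (t + 1)
  have hlost := card_lost k I l B σ hk hr
  have hsync := sync k I hk hI i (lru B) l B σ t
  have hcases := step_cases k I i (lru B) σ hk hr
  have hload := mem_load k I l B σ hr
  have hfB := flt_some k I l B σ hr
  have hspec := fun h => lru_spec B i t σ (M := mem k I i (lru B) σ t) h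
  rw [flt_some k I i _ σ hr]
  generalize (lru B).evict t (σ.take (t + 1 + i)) (mem k I i (lru B) σ t) = p0 at *
  generalize mem k I i (lru B) σ t = A at *
  generalize mem k I i (lru B) σ (t + 1) = A' at *
  generalize mem k I l B σ t = C at *
  generalize mem k I l B σ (t + 1) = C' at *
  generalize flt k I l B σ t = fB at *
  have h1 : ∑ p ∈ A \ C', rk σ t A p ≤ k * fB + ∑ p ∈ A \ C, rk σ t A p := by
    calc ∑ p ∈ A \ C', rk σ t A p ≤ ∑ p ∈ (C \ C') ∪ (A \ C), rk σ t A p := by
          apply sum_le_sum_of_subset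
          intro x hx
          simp only [mem_union, mem_sdiff] at hx ⊢
          tauto
      _ = ∑ p ∈ C \ C', rk σ t A p + ∑ p ∈ A \ C, rk σ t A p := by
          apply sum_union
          rw [disjoint_left]
          intro x hx
          simp only [mem_sdiff] at hx ⊢
          tauto
      _ ≤ k * fB + ∑ p ∈ A \ C, rk σ t A p := by
          refine Nat.add_le_add_right ?_ _
          refine le_trans (sum_le_card_nsmul _ _ k fun x _ => ?_) ?_
          · exact (card_filter_le _ _).trans hcA
          · rw [smul_eq_mul, mul_comm]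
            exact Nat.mul_le_mul_left _ hlost
  have h2 : A' \ C' ⊆ A \ C' := by
    intro x hx
    rw [mem_sdiff] at hx ⊢
    refine ⟨(mem_insert.1 (hsub hx.1)).resolve_left ?_, hx.2⟩
    rintro rfl
    exact hx.2 hrB
  have hne : ∀ p ∈ A' \ C', p ≠ r := by
    rintro p hp rfl
    exact (mem_sdiff.1 hp).2 hrB
  have h3 : ∀ p ∈ A' \ C', rk σ (t + 1) A' p ≤ rk σ t A p := fun p hp =>
    card_le_card (rk_step hr (hne p hp) hsub)
  rcases hcases with ⟨h4, h5⟩ | ⟨h4, h5, h6⟩ | ⟨h4, h5, h6, h7⟩
  · rw [if_pos h4, zero_add]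
    exact ((sum_le_sum h3).trans (sum_le_sum_of_subset h2)).trans h1
  · have e := hsync.2 h5
    subst e
    rw [hload h4 h5, h6, hfB, if_neg h4]
    simp only [sdiff_self, bot_eq_empty, sum_empty]
    omega
  · rw [if_neg h4]
    refine le_trans ?_ h1
    have hsp := hspec ⟨p0, h6⟩
    have hp0 : p0 ∉ A' := by
      rw [h7]
      have : p0 ≠ r := by
        rintro rfl
        exact h4 h6
      simp [this]
    by_cases h8 : p0 ∈ C'
    · have h9 : (A \ C').Nonempty := by
        rw [sdiff_nonempty]
        intro h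
        have : A = C' := eq_of_subset_of_card_le h (by omega)
        exact h4 (this ▸ hrB)
      obtain ⟨y, hy⟩ := h9
      have hy' : y ∈ A' \ C' := by
        rw [mem_sdiff] at hy ⊢
        refine ⟨?_, hy.2⟩
        rw [h7, mem_insert, mem_erase]
        refine Or.inr ⟨?_, hy.1⟩
        rintro rfl
        exact hy.2 h8
      have h10 : rk σ (t + 1) A' y < rk σ t A y := by
        apply card_lt_card
        refine ⟨rk_step hr (hne y hy') hsub, fun h => ?_⟩
        have : p0 ∈ A.filter fun x => lst σ t x ≤ lst σ t y :=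
          mem_filter.2 ⟨h6, hsp y (mem_sdiff.1 hy).1⟩
        exact hp0 (mem_filter.1 (h this)).1
      have h11 : ∑ p ∈ A' \ C', rk σ (t + 1) A' p < ∑ p ∈ A' \ C', rk σ t A p :=
        sum_lt_sum h3 ⟨y, hy', h10⟩
      have h12 := sum_le_sum_of_subset (f := fun p => rk σ t A p) h2
      omega
    · have h9 : insert p0 (A' \ C') ⊆ A \ C' :=
        insert_subset (mem_sdiff.2 ⟨h6, h8⟩) h2
      have h10 := sum_le_sum_of_subset (f := fun p => rk σ t A p) h9
      rw [sum_insert (fun h => hp0 (mem_sdiff.1 h).1)] at h10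
      have h11 : 1 ≤ rk σ t A p0 := card_pos.2 ⟨p0, mem_filter.2 ⟨h6, le_rfl⟩⟩
      have h12 := sum_le_sum h3
      omega

theorem lru_cost (hk : 1 ≤ k) (hI : I.card ≤ k) :
    cost k I i (lru B) σ ≤ k * cost k I l B σ := by
  have key : ∀ t, t ≤ σ.length → ∑ s ∈ range t, flt k I i (lru B) σ s +
      ∑ p ∈ mem k I i (lru B) σ t \ mem k I l B σ t, rk σ t (mem k I i (lru B) σ t) p ≤
      k * ∑ s ∈ range t, flt k I l B σ s := by
    intro t
    induction t with
    | zero => intro _; simp [mem]
    | succ t ih =>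
      intro ht
      have h1 := ih (by omega)
      have h2 := lru_step i l B σ hk hI (show t < σ.length by omega)
      rw [sum_range_succ, sum_range_succ, mul_add]
      omega
  have := key σ.length le_rfl
  rw [cost_eq, cost_eq]
  omega

end main

end Pool.Agent.H217Z.Paging
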