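import Mathlib
import Pool.Agent.H217Z.PagingBasic

set_option autoImplicit false

namespace Pool.Agent.H217Z.Paging

open Finset

universe u
variable {α : Type u} [DecidableEq α]

theorem mem_subset (k : ℕ) (I : Finset α) (i : ℕ) (A : Alg α) (σ : List α) (hk : 1 ≤ k)
    {P : Finset α} (hI : I ⊆ P) (hσ : ∀ x ∈ σ, x ∈ P) : ∀ t, mem k I i A σ t ⊆ P
  | 0 => hI
  | t + 1 => by
    have ih := mem_subset k I i A σ hk hI hσ t
    cases h : σ[t]? with
    | none => rw [mem_none k I i A σ h]; exact ih
    | some r =>
      exact (succ_subset k I i A σ hk h).trans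
        (insert_subset (hσ r (List.mem_of_getElem? h)) ih)

/-- Evicts a page that is not requested now or in the next `w` steps, if there is one. -/
noncomputable def avoid (x0 : α) (w : ℕ) : Alg α where
  evict t seen M := by
    classical
    exact if h : ∃ p ∈ M, p ∉ Rq seen t (t + 1 + w) then h.choose
      else if h' : M.Nonempty then h'.choose else x0
  evict_mem t seen M h := by
    by_cases h1 : ∃ p ∈ M, p ∉ Rq seen t (t + 1 + w)
    · simp only [dif_pos h1]; exact h1.choose_spec.1
    · simp only [dif_neg h1, dif_pos h]; exact h.choose_spec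

theorem avoid_spec (x0 : α) {w l : ℕ} (hw : w ≤ l) (t : ℕ) (σ : List α) (M : Finset α)
    (h : ∃ p ∈ M, p ∉ Rq σ t (t + 1 + w)) :
    (avoid x0 w).evict t (σ.take (t + 1 + l)) M ∉ Rq σ t (t + 1 + w) := by
  rw [← Rq_take σ (show t + 1 + w ≤ t + 1 + l by omega)] at h ⊢
  simp only [avoid, dif_pos h]
  exact h.choose_spec.2

/-- On a sequence made of blocks of `i + 1` equal requests taken from `k + 1` pages, `avoid`
faults about once in `m` blocks. -/
theorem avoid_cost {k : ℕ} {I P : Finset α} (hk : 1 ≤ k) (hI : I.card ≤ k) (hIP : I ⊆ P)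
    (hP : P.card = k + 1) (x0 : α) {i l m : ℕ} (hm1 : 1 ≤ m) (hmk : m ≤ k)
    (hml : (m - 1) * (i + 1) ≤ l) (σ : List α) (N : ℕ) (x : ℕ → α) (hlen : σ.length = N * (i + 1))
    (hx : ∀ t, t < σ.length → σ[t]? = some (x (t / (i + 1)))) (hσ : ∀ y ∈ σ, y ∈ P) :
    m * cost k I l (avoid x0 ((m - 1) * (i + 1))) σ ≤ m * k + N + m := by
  set B := avoid x0 ((m - 1) * (i + 1)) with hB
  have key : ∀ t, t ≤ σ.length → ∃ z, m * ∑ s ∈ range t, flt k I l B σ s ≤
      m * (mem k I l B σ t).card + z ∧ z * (i + 1) ≤ t + m * (i + 1) ∧
      ∀ s, t ≤ s → s < z * (i + 1) → s < σ.length → x (s / (i + 1)) ∈ mem k I l B σ t := by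
    intro t
    induction t with
    | zero => intro _; exact ⟨0, by simp, by simp, fun s _ h => by omega⟩
    | succ t ih =>
      intro ht
      obtain ⟨z, h1, h2, h3⟩ := ih (by omega)
      have hr := hx t (by omega)
      rw [sum_range_succ, flt_some k I l B σ hr]
      rcases step_cases k I l B σ hk hr with ⟨h4, h5⟩ | ⟨h4, h5, h6⟩ | ⟨h4, h5, h6, h7⟩
      · rw [if_pos h4, h5]
        exact ⟨z, h1, by omega, fun s hs => h3 s (by omega)⟩
      · rw [if_neg h4, h6, card_insert_of_notMem h4]
        refine ⟨z, by rw [mul_add, mul_add]; omega, by omega, fun s hs h8 h9 => ?_⟩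
        exact mem_insert_of_mem (h3 s (by omega) h8 h9)
      · have hz : z * (i + 1) ≤ t := by
          by_contra h
          exact h4 (h3 t le_rfl (by omega) (by omega))
        have hmod : t % (i + 1) = 0 := by
          by_contra h
          obtain ⟨t', rfl⟩ : ∃ t', t = t' + 1 := ⟨t - 1, by
            rcases t with _ | t
            · simp at h
            · rfl⟩
          have e : (t' + 1) / (i + 1) = t' / (i + 1) :=
            Nat.succ_div_of_not_dvd (fun hd => h (Nat.mod_eq_zero_of_dvd hd))
          have := req_mem k I l B σ hk (hx t' (by omega))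
          rw [e] at h4
          exact h4 this
        obtain ⟨j, hj⟩ : ∃ j, t = j * (i + 1) :=
          ⟨t / (i + 1), by rw [Nat.div_mul_cancel (Nat.dvd_of_mod_eq_zero hmod)]⟩
        have hjd : t / (i + 1) = j := by rw [hj, Nat.mul_div_cancel _ (by omega)]
        have hzj : z ≤ j := by
          rw [hj] at hz
          exact Nat.le_of_mul_le_mul_right hz (by omega)
        obtain ⟨m', rfl⟩ : ∃ m', m = m' + 1 := ⟨m - 1, by omega⟩
        simp only [Nat.add_sub_cancel] at hB hml
        have hwin : Rq σ t (t + 1 + m' * (i + 1)) ⊆ (Icc j (j + m')).image x := by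
          intro y hy
          obtain ⟨s, hs1, hs2, hs3⟩ := mem_Rq.1 hy
          have hs4 : s < σ.length := (List.getElem?_eq_some_iff.1 hs3).1
          rw [hx s hs4] at hs3
          refine mem_image.2 ⟨s / (i + 1), mem_Icc.2 ⟨?_, ?_⟩, Option.some.inj hs3⟩
          · rw [← hjd]; exact Nat.div_le_div_right hs1
          · have : s ≤ (j + m') * (i + 1) := by rw [add_mul]; omega
            calc s / (i + 1) ≤ (j + m') * (i + 1) / (i + 1) := Nat.div_le_div_right this
              _ = j + m' := Nat.mul_div_cancel _ (by omega)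
        have hex : ∃ p ∈ mem k I l B σ t, p ∉ Rq σ t (t + 1 + m' * (i + 1)) := by
          by_contra h
          push Not at h
          have h8 : insert (x (t / (i + 1))) (mem k I l B σ t) ⊆ (Icc j (j + m')).image x := by
            refine insert_subset (mem_image.2 ⟨j, mem_Icc.2 ⟨le_rfl, by omega⟩, by rw [hjd]⟩) ?_
            exact fun y hy => hwin (h y hy)
          have h9 := card_le_card h8
          rw [card_insert_of_notMem h4] at h9
          have h10 := card_image_le (s := Icc j (j + m')) (f := x)
          rw [Nat.card_Icc] at h10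
          omega
        have hp := avoid_spec x0 hml t σ _ hex
        rw [← hB] at hp
        have hfull : insert (x (t / (i + 1))) (mem k I l B σ t) = P := by
          apply eq_of_subset_of_card_le
          · exact insert_subset (hσ _ (List.mem_of_getElem? hr))
              (mem_subset k I l B σ hk hIP hσ t)
          · rw [card_insert_of_notMem h4]; omega
        rw [if_neg h4, h7, card_evict h4 h6]
        refine ⟨j + (m' + 1), by rw [mul_add]; omega, by rw [add_mul]; omega,
          fun s hs h8 h9 => ?_⟩
        have h10 : x (s / (i + 1)) ∈ P := hσ _ (List.mem_of_getElem? (hx s h9))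
        rw [← hfull, mem_insert] at h10
        rw [mem_insert, mem_erase]
        refine h10.imp_right fun h11 => ⟨?_, h11⟩
        intro h12
        apply hp
        rw [← h12, mem_Rq]
        have h13 : s / (i + 1) * (i + 1) ≤ s := Nat.div_mul_le_self _ _
        have h14 : j ≤ s / (i + 1) := by
          rw [← hjd]; exact Nat.div_le_div_right (by omega)
        have h15 : s / (i + 1) ≤ j + m' :=
          Nat.lt_succ_iff.1 ((Nat.div_lt_iff_lt_mul (by omega)).2 h8)
        refine ⟨s / (i + 1) * (i + 1), ?_, ?_, ?_⟩
        · rw [hj]; exact Nat.mul_le_mul_right _ h14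
        · have := Nat.mul_le_mul_right (i + 1) h15
          rw [add_mul] at this
          omega
        · rw [hx _ (by omega), Nat.mul_div_cancel _ (by omega)]
  obtain ⟨z, h1, h2, -⟩ := key σ.length le_rfl
  rw [cost_eq]
  have h3 : z ≤ N + m := by
    rw [hlen, ← add_mul] at h2
    exact Nat.le_of_mul_le_mul_right h2 (by omega)
  have h4 := Nat.mul_le_mul_left m (card_le k I l B σ hk hI σ.length)
  omega

section adv

variable (k : ℕ) (I P : Finset α) (i : ℕ) (A : Alg α) (x0 : α)

/-- A page of `P` outside `M`. -/
noncomputable def outside (M : Finset α) : α := by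
  classical
  exact if h : ∃ y ∈ P, y ∉ M then h.choose else x0

/-- The adversary sequence against `A`. -/
noncomputable def adv : ℕ → List α
  | 0 => []
  | N + 1 => adv N ++ List.replicate (i + 1) (outside P x0 (mem k I i A (adv N) (N * (i + 1))))

/-- The page requested in block `N`. -/
noncomputable def advx (N : ℕ) : α := outside P x0 (mem k I i A (adv k I P i A x0 N) (N * (i + 1)))

theorem adv_length : ∀ N, (adv k I P i A x0 N).length = N * (i + 1)
  | 0 => by simp [adv]
  | N + 1 => by rw [adv, List.length_append, adv_length N, List.length_replicate]; ring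

theorem advx_spec (hk : 1 ≤ k) (hI : I.card ≤ k) (hP : P.card = k + 1) (N : ℕ) :
    advx k I P i A x0 N ∈ P ∧
      advx k I P i A x0 N ∉ mem k I i A (adv k I P i A x0 N) (N * (i + 1)) := by
  have h : ∃ y ∈ P, y ∉ mem k I i A (adv k I P i A x0 N) (N * (i + 1)) := by
    by_contra h
    push Not at h
    have h1 := card_le_card (show P ⊆ _ from h)
    have h2 := card_le k I i A (adv k I P i A x0 N) hk hI (N * (i + 1))
    omega
  unfold advx outside
  simp only [dif_pos h]
  exact h.choose_spec

theorem adv_get : ∀ N t, t < N * (i + 1) →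
    (adv k I P i A x0 N)[t]? = some (advx k I P i A x0 (t / (i + 1)))
  | 0, t, h => by omega
  | N + 1, t, h => by
    rw [adv]
    by_cases h1 : t < N * (i + 1)
    · rw [List.getElem?_append_left (by rw [adv_length]; exact h1), adv_get N t h1]
    · rw [List.getElem?_append_right (by rw [adv_length]; omega), adv_length,
        List.getElem?_replicate, if_pos (by rw [add_mul] at h; omega)]
      have : t / (i + 1) = N := by
        rw [Nat.div_eq_iff (by omega)]
        rw [add_mul] at h
        omega
      rw [this]
      rfl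

theorem adv_prefix (N : ℕ) : ∀ N', N ≤ N' → adv k I P i A x0 N <+: adv k I P i A x0 N' := by
  intro N' h
  induction N', h using Nat.le_induction with
  | base => exact List.prefix_rfl
  | succ N' _ ih => rw [adv]; exact ih.trans (List.prefix_append _ _)

theorem adv_mem (hk : 1 ≤ k) : ∀ (N : ℕ) (τ : List α), adv k I P i A x0 N <+: τ →
    mem k I i A τ (N * (i + 1)) = mem k I i A (adv k I P i A x0 N) (N * (i + 1))
  | 0, τ, _ => by simp [mem]
  | N + 1, τ, h => by
    have hlen := adv_length k I P i A x0 (N + 1)
    have h1 : ∀ τ', adv k I P i A x0 (N + 1) <+: τ' → ∀ s, s ≤ i →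
        mem k I i A τ' (N * (i + 1) + 1 + s) =
          mem k I i A (adv k I P i A x0 (N + 1)) (N * (i + 1) + 1) := by
      intro τ' h' s
      have hget : ∀ s, s ≤ i → τ'[N * (i + 1) + s]? = some (advx k I P i A x0 N) := by
        intro s hs
        obtain ⟨ρ, rfl⟩ := h'
        rw [List.getElem?_append_left (by rw [hlen, add_mul]; omega),
          adv_get k I P i A x0 (N + 1) _ (by rw [add_mul]; omega)]
        congr 2
        rw [Nat.div_eq_iff (by omega)]
        omega
      have hbase : mem k I i A τ' (N * (i + 1) + 1) =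
          mem k I i A (adv k I P i A x0 (N + 1)) (N * (i + 1) + 1) := by
        have e : adv k I P i A x0 (N + 1) = τ'.take (N * (i + 1) + 1 + i) := by
          rw [List.prefix_iff_eq_take] at h'
          rw [h', hlen]
          congr 1
          ring
        rw [e, mem_take k I i A τ' le_rfl]
      induction s with
      | zero => intro _; exact hbase
      | succ s ih =>
        intro hs
        have h2 := ih (by omega)
        have h3 : advx k I P i A x0 N ∈ mem k I i A τ' (N * (i + 1) + 1 + s) := by
          rw [h2, ← hbase]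
          exact req_mem k I i A τ' hk (hget 0 (by omega))
        rw [← add_assoc, mem_hit k I i A τ' (by rw [add_assoc, add_comm 1 s]; exact hget _ hs) h3,
          h2]
    have e : (N + 1) * (i + 1) = N * (i + 1) + 1 + i := by ring
    rw [e, h1 τ h i le_rfl, h1 _ List.prefix_rfl i le_rfl]

theorem adv_cost (hk : 1 ≤ k) (hI : I.card ≤ k) (hP : P.card = k + 1) (N : ℕ) :
    N ≤ cost k I i A (adv k I P i A x0 N) := by
  rw [cost_eq, adv_length]
  have key : ∀ j, j ≤ N → j ≤ ∑ t ∈ range (j * (i + 1)), flt k I i A (adv k I P i A x0 N) t := by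
    intro j
    induction j with
    | zero => intro _; exact Nat.zero_le _
    | succ j ih =>
      intro hj
      have h1 := ih (by omega)
      have h2 : flt k I i A (adv k I P i A x0 N) (j * (i + 1)) = 1 := by
        have hlt : j * (i + 1) < N * (i + 1) := Nat.mul_lt_mul_of_pos_right (by omega) (by omega)
        rw [flt_some k I i A _ (adv_get k I P i A x0 N _ hlt), Nat.mul_div_cancel _ (by omega),
          adv_mem k I P i A x0 hk j _ (adv_prefix k I P i A x0 j N (by omega)),
          if_neg (advx_spec k I P i A x0 hk hI hP j).2]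
      have h3 : ∑ t ∈ range (j * (i + 1) + 1), flt k I i A (adv k I P i A x0 N) t ≤
          ∑ t ∈ range ((j + 1) * (i + 1)), flt k I i A (adv k I P i A x0 N) t :=
        sum_le_sum_of_subset (range_subset_range.2 (by rw [add_mul]; omega))
      rw [sum_range_succ] at h3
      omega
  exact key N le_rfl

end adv

/-- For every `A` and `N` a sequence on which `A` faults `N` times and `avoid` about `N / m`. -/
theorem lower_seq {k : ℕ} {I P : Finset α} (hk : 1 ≤ k) (hI : I.card ≤ k) (hIP : I ⊆ P)
    (hP : P.card = k + 1) (x0 : α) {i l m : ℕ} (hm1 : 1 ≤ m) (hmk : m ≤ k)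
    (hml : (m - 1) * (i + 1) ≤ l) (A : Alg α) (N : ℕ) : ∃ σ : List α, N ≤ cost k I i A σ ∧
      m * cost k I l (avoid x0 ((m - 1) * (i + 1))) σ ≤ m * k + N + m := by
  refine ⟨adv k I P i A x0 N, adv_cost k I P i A x0 hk hI hP N,
    avoid_cost hk hI hIP hP x0 hm1 hmk hml _ N (advx k I P i A x0) (adv_length _ _ _ _ _ _ _)
      (fun t ht => adv_get k I P i A x0 N t (by rwa [adv_length] at ht)) ?_⟩
  intro y hy
  obtain ⟨t, ht⟩ := List.mem_iff_getElem?.1 hy
  have h1 : t < N * (i + 1) := by
    have := (List.getElem?_eq_some_iff.1 ht).1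
    rwa [adv_length] at this
  rw [adv_get k I P i A x0 N t h1] at ht
  rw [← Option.some.inj ht]
  exact (advx_spec k I P i A x0 hk hI hP _).1

end Pool.Agent.H217Z.Paging
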