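import Mathlib
import Pool.Agent.H217Z.PagingBasic

set_option autoImplicit false

namespace Pool.Agent.H217Z.Paging

open Finset

universe u
variable {α : Type u} [DecidableEq α]

/-- What the evicted page `p` has to satisfy, at time `u = t + 1`. -/
def Spec (k : ℕ) (I : Finset α) (i l : ℕ) (B : Alg α) (u : ℕ) (σ : List α) (M : Finset α)
    (p : α) : Prop :=
  p ∈ M ∧ (∀ τ, τ ≤ u + i → p ∈ Rq σ u τ → M ⊆ Rq σ u τ) ∧
    ((∃ x ∈ M, x ∉ Rq σ u (u + i) ∧ x ∉ mem k I l B σ (u - (l - i)) ∪ Rq σ (u - (l - i)) u) →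
      p ∉ Rq σ u (u + i) ∧ p ∉ mem k I l B σ (u - (l - i)) ∪ Rq σ (u - (l - i)) u)

theorem exists_spec (k : ℕ) (I : Finset α) (i l : ℕ) (B : Alg α) (u : ℕ) (σ : List α)
    (M : Finset α) (hM : M.Nonempty) : ∃ p, Spec k I i l B u σ M p := by
  by_cases h1 : ∃ x ∈ M, x ∉ Rq σ u (u + i) ∧
      x ∉ mem k I l B σ (u - (l - i)) ∪ Rq σ (u - (l - i)) u
  · obtain ⟨x, hx, h2, h3⟩ := h1
    exact ⟨x, hx, fun τ hτ hp => absurd (Rq_mono σ le_rfl hτ hp) h2, fun _ => ⟨h2, h3⟩⟩
  by_cases h2 : ∃ x ∈ M, x ∉ Rq σ u (u + i)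
  · obtain ⟨x, hx, h2⟩ := h2
    exact ⟨x, hx, fun τ hτ hp => absurd (Rq_mono σ le_rfl hτ hp) h2, fun h => absurd h h1⟩
  push Not at h2
  classical
  let f : α → ℕ := fun x => sInf {τ | x ∈ Rq σ u τ}
  obtain ⟨p, hp, hmax⟩ := exists_max_image M f hM
  refine ⟨p, hp, fun τ _ hpτ x hx => ?_, fun h => absurd h h1⟩
  have h3 : f p ≤ τ := Nat.sInf_le hpτ
  have h4 : x ∈ Rq σ u (f x) := Nat.sInf_mem (s := {τ | x ∈ Rq σ u τ}) ⟨u + i, h2 x hx⟩
  exact Rq_mono σ le_rfl ((hmax x hx).trans h3) h4

theorem spec_take {k : ℕ} {I : Finset α} {i l : ℕ} (hil : i < l) {B : Alg α} {u : ℕ} {σ : List α}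
    {M : Finset α} {p : α} (h : Spec k I i l B u (σ.take (u + i)) M p) :
    Spec k I i l B u σ M p := by
  obtain ⟨h1, h2, h3⟩ := h
  have e1 : mem k I l B (σ.take (u + i)) (u - (l - i)) = mem k I l B σ (u - (l - i)) := by
    by_cases hu : u ≤ l - i
    · rw [show u - (l - i) = 0 by omega]; rfl
    · exact mem_take k I l B σ (by omega)
  rw [e1, Rq_take σ le_rfl, Rq_take σ (show u ≤ u + i by omega)] at h3
  refine ⟨h1, fun τ hτ => ?_, h3⟩
  have := h2 τ hτ
  rwa [Rq_take σ hτ] at this

/-- The answer to `B`. -/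
noncomputable def follow (k : ℕ) (I : Finset α) (i l : ℕ) (B : Alg α) : Alg α where
  evict t seen M := by
    classical
    exact if h : M.Nonempty then (exists_spec k I i l B (t + 1) seen M h).choose
      else B.evict t seen M
  evict_mem t seen M h := by
    simp only [dif_pos h]
    exact (exists_spec k I i l B (t + 1) seen M h).choose_spec.1

theorem follow_spec {k : ℕ} {I : Finset α} {i l : ℕ} (hil : i < l) (B : Alg α) (t : ℕ)
    (σ : List α) {M : Finset α} (h : M.Nonempty) :
    Spec k I i l B (t + 1) σ M ((follow k I i l B).evict t (σ.take (t + 1 + i)) M) := by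
  apply spec_take hil
  simp only [follow, dif_pos h]
  exact (exists_spec k I i l B (t + 1) _ M h).choose_spec

section sets

theorem F0_aux {A B W R : Finset α} (hc : A.card = B.card) (hW : W ⊆ R) :
    (B ∩ R).card ≤ (A ∩ R).card + (A \ (B ∪ W)).card := by
  have h1 : (B ∩ R).card ≤ (B \ A).card + (A ∩ B ∩ R).card := by
    rw [← card_union_of_disjoint]
    · apply card_le_card
      intro x hx
      simp only [mem_union, mem_sdiff, mem_inter] at hx ⊢
      tauto
    · rw [disjoint_left]
      intro x hx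
      simp only [mem_sdiff, mem_inter] at hx ⊢
      tauto
  have h2 : (A ∩ B ∩ R).card + ((A \ B) ∩ W).card ≤ (A ∩ R).card := by
    rw [← card_union_of_disjoint]
    · apply card_le_card
      intro x hx
      have := @hW x
      simp only [mem_union, mem_sdiff, mem_inter] at hx ⊢
      tauto
    · rw [disjoint_left]
      intro x hx
      simp only [mem_sdiff, mem_inter] at hx ⊢
      tauto
  have h3 : (B \ A).card = (A \ B).card := card_sdiff_comm hc.symm
  have h4 : (A \ B).card = ((A \ B) ∩ W).card + (A \ (B ∪ W)).card := by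
    rw [← card_union_of_disjoint]
    · congr 1
      ext x
      simp only [mem_union, mem_sdiff, mem_inter]
      tauto
    · rw [disjoint_left]
      intro x hx
      simp only [mem_sdiff, mem_inter, mem_union] at hx ⊢
      tauto
  omega

end sets

section main

variable (k : ℕ) (I : Finset α) (i l : ℕ) (B : Alg α) (σ : List α)

/-- Memory of the follower. -/
noncomputable def mA (t : ℕ) : Finset α := mem k I i (follow k I i l B) σ t
/-- Memory of `B`. -/
def mB (t : ℕ) : Finset α := mem k I l B σ t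
/-- Faults of the follower before time `t`. -/
noncomputable def cA (t : ℕ) : ℕ := ∑ s ∈ range t, flt k I i (follow k I i l B) σ s
/-- Faults of `B` before time `t`. -/
def cB (t : ℕ) : ℕ := ∑ s ∈ range t, flt k I l B σ s

/-- First potential. -/
noncomputable def eP (t τ : ℕ) : ℤ :=
  (cA k I i l B σ t : ℤ) - cB k I l B σ t + (mB k I l B σ t ∩ Rq σ t τ).card
    - (mA k I i l B σ t ∩ Rq σ t τ).card

/-- Second potential. -/
noncomputable def hP (t : ℕ) : ℤ :=
  (cA k I i l B σ t : ℤ) - cB k I l B σ t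
    + (mA k I i l B σ t \ (mB k I l B σ t ∪ Rq σ t (t + i))).card

variable {k I i l}

theorem F0 (hk : 1 ≤ k) (hI : I.card ≤ k) {t τ : ℕ} (h : t + i ≤ τ) :
    eP k I i l B σ t τ ≤ hP k I i l B σ t := by
  have := F0_aux (A := mA k I i l B σ t) (B := mB k I l B σ t) (W := Rq σ t (t + i))
    (R := Rq σ t τ) (sync k I hk hI i _ l B σ t).1 (Rq_mono σ le_rfl h)
  unfold eP hP
  omega

theorem inter_B_le (hk : 1 ≤ k) {t : ℕ} {r : α} (hr : σ[t]? = some r) (R : Finset α) :
    (mB k I l B σ (t + 1) ∩ R).card ≤ (mB k I l B σ t ∩ R).card + flt k I l B σ t := by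
  rw [flt_some k I l B σ hr]
  unfold mB
  split_ifs with h
  · rw [mem_hit k I l B σ hr h]; rfl
  · refine le_trans (card_le_card (t := insert r (mem k I l B σ t ∩ R)) ?_) (card_insert_le _ _)
    intro x hx
    have := succ_subset k I l B σ hk hr (mem_of_mem_inter_left hx)
    simp only [mem_insert, mem_inter] at hx this ⊢
    tauto

theorem card_inter_insert {X R : Finset α} {r : α} (hr : r ∈ X) :
    (X ∩ insert r R).card = (X ∩ R).card + (if r ∈ R then 0 else 1) := by
  split_ifs with h
  · rw [insert_eq_of_mem h]; rfl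
  · rw [inter_insert_of_mem hr, card_insert_of_notMem]
    simp [h]

theorem F1a (hk : 1 ≤ k) {t τ : ℕ} {r : α} (hr : σ[t]? = some r) (h : t + 1 ≤ τ)
    (hp : k ≤ (mA k I i l B σ t).card → r ∉ mA k I i l B σ t →
      (follow k I i l B).evict t (σ.take (t + 1 + i)) (mA k I i l B σ t) ∉ Rq σ (t + 1) τ) :
    eP k I i l B σ (t + 1) τ ≤ eP k I i l B σ t τ := by
  have hR : Rq σ t τ = insert r (Rq σ (t + 1) τ) := Rq_left hr (by omega)
  have h1 := card_inter_insert (R := Rq σ (t + 1) τ) (req_mem k I l B σ hk hr)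
  have h2 := card_inter_insert (R := Rq σ (t + 1) τ) (req_mem k I i (follow k I i l B) σ hk hr)
  have h3 := inter_B_le B σ hk (I := I) (l := l) hr (insert r (Rq σ (t + 1) τ))
  have h4 : (mA k I i l B σ t ∩ insert r (Rq σ (t + 1) τ)).card +
      flt k I i (follow k I i l B) σ t ≤
      (mA k I i l B σ (t + 1) ∩ insert r (Rq σ (t + 1) τ)).card := by
    rw [flt_some k I i _ σ hr]
    unfold mA at hp ⊢
    rcases step_cases k I i (follow k I i l B) σ hk hr with
      ⟨h1, h2⟩ | ⟨h1, -, h3⟩ | ⟨h1, h2, h3, h4⟩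
    · rw [h2, if_pos h1]; rfl
    · rw [h3, if_neg h1, ← card_insert_of_notMem (a := r) (by simp [h1])]
      apply card_le_card
      intro x hx
      simp only [mem_insert, mem_inter] at hx ⊢
      tauto
    · rw [h4, if_neg h1, ← card_insert_of_notMem (a := r) (by simp [h1])]
      apply card_le_card
      intro x hx
      have hp' := hp h2 h1
      simp only [mem_insert, mem_inter, mem_erase] at hx ⊢
      rcases hx with rfl | ⟨h5, rfl | h6⟩
      · tauto
      · tauto
      · refine ⟨Or.inr ⟨?_, h5⟩, Or.inr h6⟩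
        rintro rfl
        exact hp' h6
  unfold eP cA cB
  rw [sum_range_succ, sum_range_succ, hR]
  unfold mA mB at *
  push_cast
  omega

theorem F1 (hk : 1 ≤ k) (hI : I.card ≤ k) (hil : i < l) {t τ : ℕ} {r : α} (hr : σ[t]? = some r)
    (h : t + 1 ≤ τ) (h' : τ ≤ t + 1 + i) :
    eP k I i l B σ (t + 1) τ ≤ eP k I i l B σ t τ ∨
      eP k I i l B σ (t + 1) τ ≤ eP k I i l B σ t (t + 1) := by
  by_cases hp : k ≤ (mA k I i l B σ t).card → r ∉ mA k I i l B σ t →
      (follow k I i l B).evict t (σ.take (t + 1 + i)) (mA k I i l B σ t) ∉ Rq σ (t + 1) τ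
  · exact Or.inl (F1a B σ hk hr h hp)
  right
  push Not at hp
  obtain ⟨h1, h2, h3⟩ := hp
  have hne : (mA k I i l B σ t).Nonempty := by rw [← card_pos]; omega
  have hs := (follow_spec hil B t σ (k := k) (I := I) hne).2.1 τ h' h3
  have h4 : eP k I i l B σ (t + 1) (t + 1) ≤ eP k I i l B σ t (t + 1) :=
    F1a B σ hk hr le_rfl (by rw [Rq_self]; intro _ _; exact notMem_empty _)
  refine le_trans ?_ h4
  have h5 := card_inter_insert (R := Rq σ (t + 1) τ) (req_mem k I l B σ hk hr)
  have h6 := card_inter_insert (R := Rq σ (t + 1) τ) (req_mem k I i (follow k I i l B) σ hk hr)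
  have h7 : mem k I i (follow k I i l B) σ (t + 1) ∩ insert r (Rq σ (t + 1) τ) =
      mem k I i (follow k I i l B) σ (t + 1) := by
    rw [inter_eq_left]
    exact (succ_subset k I i _ σ hk hr).trans (insert_subset_insert _ hs)
  have h8 : (mem k I l B σ (t + 1) ∩ insert r (Rq σ (t + 1) τ)).card ≤
      (mem k I l B σ (t + 1)).card := card_le_card inter_subset_left
  have h9 := (sync k I hk hI i (follow k I i l B) l B σ (t + 1)).1
  rw [h7] at h6
  unfold eP mA mB
  rw [Rq_self]
  simp only [inter_empty, card_empty]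
  omega

theorem B_subset (hk : 1 ≤ k) (a : ℕ) : ∀ b, a ≤ b → b ≤ σ.length →
    mB k I l B σ b ⊆ mB k I l B σ a ∪ Rq σ a b := by
  intro b hab
  induction b, hab using Nat.le_induction with
  | base => intro _; exact subset_union_left
  | succ b hab ih =>
    intro hb
    obtain ⟨r, hr⟩ := exists_req (σ := σ) (t := b) (by omega)
    rw [Rq_right hr hab, union_insert]
    exact (succ_subset k I l B σ hk hr).trans (insert_subset_insert _ (ih (by omega)))

theorem U_card (hk : 1 ≤ k) (a : ℕ) : ∀ b, a ≤ b → b ≤ σ.length →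
    ((mB k I l B σ a ∪ Rq σ a b) \ mB k I l B σ b).card + cB k I l B σ a ≤ cB k I l B σ b := by
  intro b hab
  induction b, hab using Nat.le_induction with
  | base => intro _; rw [Rq_self]; simp
  | succ b hab ih =>
    intro hb
    obtain ⟨r, hr⟩ := exists_req (σ := σ) (t := b) (by omega)
    have h1 := ih (by omega)
    have h2 := card_lost k I l B σ hk hr
    have h3 : ((mB k I l B σ a ∪ Rq σ a (b + 1)) \ mB k I l B σ (b + 1)).card ≤
        ((mB k I l B σ a ∪ Rq σ a b) \ mB k I l B σ b).card +
          (mem k I l B σ b \ mem k I l B σ (b + 1)).card := by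
      refine le_trans (card_le_card ?_) (card_union_le _ _)
      intro x hx
      have h4 := req_mem k I l B σ hk hr
      rw [Rq_right hr hab] at hx
      unfold mB at hx ⊢
      simp only [mem_union, mem_sdiff, mem_insert] at hx ⊢
      by_cases h5 : x = r
      · subst h5; tauto
      · tauto
    have h5 : cB k I l B σ (b + 1) = cB k I l B σ b + flt k I l B σ b := sum_range_succ _ _
    omega

theorem F2 (hk : 1 ≤ k) (hI : I.card ≤ k) (hil : i < l) {t : ℕ} (ht : t < σ.length) :
    hP k I i l B σ (t + 1) ≤ hP k I i l B σ t ∨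
      hP k I i l B σ (t + 1) + cB k I l B σ (t + 1 - (l - i)) ≤ cA k I i l B σ (t + 1) := by
  obtain ⟨r, hr⟩ := exists_req ht
  by_cases hx : ∃ x ∈ mA k I i l B σ (t + 1), x ∉ Rq σ (t + 1) (t + 1 + i) ∧
      x ∉ mB k I l B σ (t + 1 - (l - i)) ∪ Rq σ (t + 1 - (l - i)) (t + 1)
  · left
    obtain ⟨x, hx1, hx2, hx3⟩ := hx
    have hrR : r ∈ Rq σ (t + 1 - (l - i)) (t + 1) := by
      rw [mem_Rq]; exact ⟨t, by omega, by omega, hr⟩
    have hxr : x ≠ r := by
      rintro rfl
      exact hx3 (mem_union_right _ hrR)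
    have hx4 : x ∈ mA k I i l B σ t := by
      have := succ_subset k I i (follow k I i l B) σ hk hr hx1
      rw [mem_insert] at this
      exact this.resolve_left hxr
    have hW : Rq σ t (t + i) ⊆ insert r (Rq σ (t + 1) (t + 1 + i)) := by
      rw [← Rq_left hr (by omega)]
      exact Rq_mono σ le_rfl (by omega)
    have hBU : mB k I l B σ t ⊆
        mB k I l B σ (t + 1 - (l - i)) ∪ Rq σ (t + 1 - (l - i)) (t + 1) :=
      (B_subset B σ hk _ t (by omega) (by omega)).trans
        (union_subset_union_right (Rq_mono σ le_rfl (by omega)))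
    have hrB := req_mem k I l B σ hk hr
    have hlost := card_lost k I l B σ hk hr
    have key : (mA k I i l B σ (t + 1) \ (mB k I l B σ (t + 1) ∪ Rq σ (t + 1) (t + 1 + i))).card
        + flt k I i (follow k I i l B) σ t ≤
        (mA k I i l B σ t \ (mB k I l B σ t ∪ Rq σ t (t + i))).card +
          (mem k I l B σ t \ mem k I l B σ (t + 1)).card := by
      refine le_trans ?_ (card_union_le _ _)
      rw [flt_some k I i _ σ hr]
      have hsub : ∀ y, y ∈ mA k I i l B σ t → y ≠ r → y ∉ mB k I l B σ (t + 1) →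
          y ∉ Rq σ (t + 1) (t + 1 + i) →
          y ∈ mA k I i l B σ t \ (mB k I l B σ t ∪ Rq σ t (t + i)) ∪
            mem k I l B σ t \ mem k I l B σ (t + 1) := by
        intro y h1 h2 h3 h4
        have := @hW y
        unfold mB at h3 ⊢
        simp only [mem_union, mem_sdiff, mem_insert] at this ⊢
        tauto
      unfold mA at *
      rcases step_cases k I i (follow k I i l B) σ hk hr with
        ⟨h1, h2⟩ | ⟨h1, h2, h3⟩ | ⟨h1, h2, h3, h4⟩
      · rw [h2, if_pos h1, add_zero]
        apply card_le_card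
        intro y hy
        simp only [mem_sdiff, mem_union, not_or] at hy
        refine hsub y hy.1 ?_ hy.2.1 hy.2.2
        rintro rfl
        exact hy.2.1 hrB
      · exfalso
        have e := (sync k I hk hI i (follow k I i l B) l B σ t).2 h2
        rw [e] at hx4
        exact hx3 (hBU hx4)
      · have hne : (mem k I i (follow k I i l B) σ t).Nonempty := ⟨x, hx4⟩
        have hs := (follow_spec hil B t σ (k := k) (I := I) hne).2.2 ⟨x, hx4, hx2, hx3⟩
        generalize (follow k I i l B).evict t (σ.take (t + 1 + i))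
          (mem k I i (follow k I i l B) σ t) = p at h3 h4 hs
        have hpB : p ∉ mB k I l B σ (t + 1) := fun h =>
          hs.2 (B_subset B σ hk _ (t + 1) (by omega) (by omega) h)
        have hpr : p ≠ r := by
          rintro rfl
          exact h1 h3
        rw [if_neg h1, ← card_insert_of_notMem (a := p)]
        · apply card_le_card
          intro y hy
          rw [mem_insert] at hy
          rcases hy with rfl | hy
          · exact hsub y h3 hpr hpB hs.1
          · rw [h4] at hy
            simp only [mem_sdiff, mem_union, not_or, mem_insert, mem_erase] at hy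
            have hyr : y ≠ r := by
              rintro rfl
              exact hy.2.1 hrB
            exact hsub y (hy.1.resolve_left hyr).2 hyr hy.2.1 hy.2.2
        · rw [h4]
          simp [hpr]
    unfold hP cA cB
    rw [sum_range_succ, sum_range_succ]
    push_cast
    omega
  · right
    push Not at hx
    have h1 := U_card B σ hk (I := I) (l := l) (t + 1 - (l - i)) (t + 1) (by omega) (by omega)
    have h2 : (mA k I i l B σ (t + 1) \ (mB k I l B σ (t + 1) ∪ Rq σ (t + 1) (t + 1 + i))).card ≤
        ((mB k I l B σ (t + 1 - (l - i)) ∪ Rq σ (t + 1 - (l - i)) (t + 1)) \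
          mB k I l B σ (t + 1)).card := by
      apply card_le_card
      intro y hy
      rw [mem_sdiff, mem_union, not_or] at hy
      exact mem_sdiff.2 ⟨hx y hy.1 hy.2.2, hy.2.1⟩
    unfold hP
    omega

end main

end Pool.Agent.H217Z.Paging
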