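import Mathlib
import Pool.Agent.H217Z.PagingUp

set_option autoImplicit false

namespace Pool.Agent.H217Z.Paging

open Finset

universe u
variable {α : Type u} [DecidableEq α]

/-- The weight of a fault of age `x`. -/
def gw (i l x : ℕ) : ℕ := min (l / (i + 1)) (x / (i + 1) + 1)

/-- The budget at time `T`. -/
def KK (i l : ℕ) (f : ℕ → ℕ) (T : ℕ) : ℕ := ∑ s ∈ range T, f s * gw i l (T - 1 - s)

theorem gw_mono (i l : ℕ) {x y : ℕ} (h : x ≤ y) : gw i l x ≤ gw i l y :=
  min_le_min le_rfl (Nat.succ_le_succ (Nat.div_le_div_right h))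

theorem KK_mono (i l : ℕ) (f : ℕ → ℕ) (T : ℕ) : KK i l f T ≤ KK i l f (T + 1) := by
  unfold KK
  rw [sum_range_succ]
  refine le_trans (sum_le_sum fun s _ => ?_) (Nat.le_add_right _ _)
  exact Nat.mul_le_mul_left _ (gw_mono i l (by omega))

theorem KK_le (i l : ℕ) (f : ℕ → ℕ) (T : ℕ) : KK i l f T ≤ l / (i + 1) * ∑ s ∈ range T, f s := by
  unfold KK
  rw [mul_sum]
  refine sum_le_sum fun s _ => ?_
  rw [mul_comm]
  exact Nat.mul_le_mul_right _ (min_le_left _ _)

theorem sum_range_ite (g : ℕ → ℕ) {a T : ℕ} (h : a ≤ T) :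
    ∑ s ∈ range a, g s = ∑ s ∈ range T, if s < a then g s else 0 := by
  rw [← sum_filter]
  congr 1
  ext s
  simp only [mem_range, mem_filter]
  omega

theorem KK_step {i l : ℕ} (hil : i < l) (f : ℕ → ℕ) (T : ℕ) :
    KK i l f (T - (i + 1)) + ∑ s ∈ range T, f s ≤
      KK i l f T + ∑ s ∈ range (T - (l - i)), f s := by
  unfold KK
  rw [sum_range_ite _ (show T - (i + 1) ≤ T by omega),
    sum_range_ite f (show T - (l - i) ≤ T by omega), ← sum_add_distrib, ← sum_add_distrib]
  refine sum_le_sum fun s hs => ?_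
  rw [mem_range] at hs
  have hM : 1 ≤ l / (i + 1) := (Nat.le_div_iff_mul_le (by omega)).2 (by omega)
  by_cases h2 : s < T - (l - i)
  · rw [if_pos h2]
    refine Nat.add_le_add_right ?_ _
    split_ifs
    · exact Nat.mul_le_mul_left _ (gw_mono i l (by omega))
    · exact Nat.zero_le _
  · rw [if_neg h2, add_zero]
    have hx : (T - 1 - s) / (i + 1) + 1 ≤ l / (i + 1) := by
      rw [← Nat.add_div_right _ (show 0 < i + 1 by omega)]
      exact Nat.div_le_div_right (by omega)
    have hg : gw i l (T - 1 - s) = (T - 1 - s) / (i + 1) + 1 := min_eq_right hx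
    rw [hg]
    split_ifs with h1
    · have h3 : gw i l (T - (i + 1) - 1 - s) ≤ (T - 1 - s) / (i + 1) := by
        refine le_trans (min_le_right _ _) ?_
        rw [← Nat.add_div_right _ (show 0 < i + 1 by omega)]
        exact Nat.div_le_div_right (by omega)
      calc f s * gw i l (T - (i + 1) - 1 - s) + f s
          ≤ f s * ((T - 1 - s) / (i + 1)) + f s :=
            Nat.add_le_add_right (Nat.mul_le_mul_left _ h3) _
        _ = f s * ((T - 1 - s) / (i + 1) + 1) := by ring
    · rw [zero_add]
      exact Nat.le_mul_of_pos_right _ (Nat.succ_pos _)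

section main

variable {k : ℕ} {I : Finset α} {i l : ℕ} (B : Alg α) (σ : List α)

theorem block (hk : 1 ≤ k) (hI : I.card ≤ k) (hil : i < l) (a : ℕ) (c : ℤ)
    (ha : ∀ τ, a ≤ τ → τ ≤ a + i + 1 → eP k I i l B σ a τ ≤ c) :
    ∀ t, a ≤ t → t ≤ σ.length → ∀ τ, t ≤ τ → τ ≤ a + i + 1 → eP k I i l B σ t τ ≤ c := by
  intro t hat
  induction t, hat using Nat.le_induction with
  | base => intro _; exact ha
  | succ t hat ih =>
    intro ht τ h1 h2
    obtain ⟨r, hr⟩ := exists_req (σ := σ) (t := t) (by omega)
    rcases F1 B σ hk hI hil hr h1 (by omega) with h | h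
    · exact h.trans (ih (by omega) τ (by omega) h2)
    · exact h.trans (ih (by omega) (t + 1) (by omega) (by omega))

theorem invariant (hk : 1 ≤ k) (hI : I.card ≤ k) (hil : i < l) : ∀ t, t ≤ σ.length →
    hP k I i l B σ t ≤ KK i l (flt k I l B σ) t ∧
      ∀ τ, t ≤ τ → τ ≤ t + i + 1 → eP k I i l B σ t τ ≤ KK i l (flt k I l B σ) t := by
  intro t
  induction t using Nat.strong_induction_on with
  | _ t ih =>
    intro ht
    cases t with
    | zero =>
      refine ⟨?_, fun τ _ _ => ?_⟩
      · have : mA k I i l B σ 0 \ (mB k I l B σ 0 ∪ Rq σ 0 (0 + i)) = ∅ :=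
          sdiff_eq_empty_iff_subset.2 subset_union_left
        unfold hP
        rw [this]
        simp [cA, cB, KK]
      · have : mA k I i l B σ 0 = mB k I l B σ 0 := rfl
        unfold eP
        rw [this]
        simp [cA, cB, KK]
    | succ t =>
      have hmono : (KK i l (flt k I l B σ) t : ℤ) ≤ KK i l (flt k I l B σ) (t + 1) := by
        exact_mod_cast KK_mono i l _ t
      obtain ⟨ih1, ih2⟩ := ih t (by omega) (by omega)
      have hh : hP k I i l B σ (t + 1) ≤ KK i l (flt k I l B σ) (t + 1) := by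
        rcases F2 B σ hk hI hil (show t < σ.length by omega) with h | h
        · omega
        · have h1 := block B σ hk hI hil (t + 1 - (i + 1)) _
            (ih (t + 1 - (i + 1)) (by omega) (by omega)).2 (t + 1) (by omega) ht (t + 1) le_rfl
            (by omega)
          have h2 := KK_step hil (flt k I l B σ) (t + 1)
          unfold eP at h1
          rw [Rq_self] at h1
          simp only [inter_empty, card_empty] at h1
          unfold cB at h h1
          omega
      refine ⟨hh, fun τ h1 h2 => ?_⟩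
      by_cases h3 : τ ≤ t + i + 1
      · exact (block B σ hk hI hil t _ ih2 (t + 1) (by omega) ht τ h1 h3).trans hmono
      · exact (F0 B σ hk hI (by omega)).trans hh

theorem follow_cost (hk : 1 ≤ k) (hI : I.card ≤ k) (hil : i < l) :
    cost k I i (follow k I i l B) σ ≤ (l / (i + 1) + 1) * cost k I l B σ := by
  have h1 := (invariant B σ hk hI hil σ.length le_rfl).2 σ.length le_rfl (by omega)
  have h2 := KK_le i l (flt k I l B σ) σ.length
  unfold eP at h1
  rw [Rq_self] at h1
  simp only [inter_empty, card_empty] at h1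
  rw [cost_eq, cost_eq, add_mul, one_mul]
  unfold cA cB at h1
  omega

end main

end Pool.Agent.H217Z.Paging
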