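import Mathlib
import Pool.Agent.H217Z.PagingUp2
import Pool.Agent.H217Z.PagingLRU
import Pool.Agent.H217Z.PagingLow

set_option autoImplicit false

namespace Pool.Agent.H217Z.Paging

open Finset

universe u
variable {α : Type u} [DecidableEq α]

theorem ratio_le {k : ℕ} {I : Finset α} {i l : ℕ} {A B : Alg α} {c : ℕ}
    (h : ∀ σ, cost k I i A σ ≤ c * cost k I l B σ) : ratio k I i A l B ≤ ((c : ℝ) : EReal) := by
  refine sInf_le ⟨c, 0, rfl, fun σ => ?_⟩
  rw [add_zero]
  exact_mod_cast h σ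

theorem le_ratio {k : ℕ} {I : Finset α} {i l : ℕ} {A B : Alg α} {m : ℕ} (hm : 1 ≤ m)
    (h : ∀ N : ℕ, ∃ σ : List α, N ≤ cost k I i A σ ∧ m * cost k I l B σ ≤ m * k + N + m) :
    ((m : ℝ) : EReal) ≤ ratio k I i A l B := by
  refine le_sInf ?_
  rintro x ⟨c, b, rfl, hc⟩
  rw [EReal.coe_le_coe_iff]
  by_contra hlt
  push Not at hlt
  have hm' : (1 : ℝ) ≤ m := by exact_mod_cast hm
  set c' : ℝ := max c 0 with hc'
  have h0 : 0 ≤ c' := le_max_right _ _
  have h1 : c' < m := max_lt hlt (by linarith)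
  obtain ⟨N, hN⟩ := exists_nat_gt ((c' * (m * k + m) + m * b) / (m - c'))
  rw [div_lt_iff₀ (by linarith)] at hN
  obtain ⟨σ, h2, h3⟩ := h N
  have h2' : (N : ℝ) ≤ cost k I i A σ := by exact_mod_cast h2
  have h3' : (m : ℝ) * cost k I l B σ ≤ m * k + N + m := by exact_mod_cast h3
  have h4 := hc σ
  have h5 : c * (cost k I l B σ : ℝ) ≤ c' * cost k I l B σ :=
    mul_le_mul_of_nonneg_right (le_max_left _ _) (Nat.cast_nonneg _)
  have h6 : (m : ℝ) * N ≤ m * (c' * cost k I l B σ + b) :=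
    mul_le_mul_of_nonneg_left (by linarith) (by linarith)
  have h7 := mul_le_mul_of_nonneg_left h3' h0
  nlinarith

theorem compRatio_eq {k : ℕ} (hk : 1 ≤ k) {I : Finset α} (hI : I.card ≤ k)
    (hα : ∃ P : Finset α, k < P.card) {i l : ℕ} (hil : i < l) :
    compRatio k I i l = (((min k (l / (i + 1) + 1) : ℕ) : ℝ) : EReal) := by
  obtain ⟨P0, hP0⟩ := hα
  obtain ⟨P, hIP, -, hP⟩ := exists_subsuperset_card_eq (n := k + 1)
    (subset_union_left : I ⊆ I ∪ P0) (by omega)
    (le_trans hP0 (card_le_card subset_union_right))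
  obtain ⟨x0, -⟩ : P.Nonempty := by rw [← card_pos]; omega
  apply le_antisymm
  · refine iSup_le fun B => ?_
    rcases le_total k (l / (i + 1) + 1) with h | h
    · rw [min_eq_left h]
      exact iInf_le_of_le (lru B) (ratio_le fun σ => lru_cost i l B σ hk hI)
    · rw [min_eq_right h]
      exact iInf_le_of_le (follow k I i l B) (ratio_le fun σ => follow_cost B σ hk hI hil)
  · set m := min k (l / (i + 1) + 1) with hm
    have hm1 : 1 ≤ m := le_min hk (Nat.succ_pos _)
    have hmk : m ≤ k := min_le_left _ _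
    have hml : (m - 1) * (i + 1) ≤ l := by
      have h1 : m ≤ l / (i + 1) + 1 := min_le_right _ _
      exact le_trans (Nat.mul_le_mul_right _ (by omega)) (Nat.div_mul_le_self l (i + 1))
    refine le_iSup_of_le (avoid x0 ((m - 1) * (i + 1))) (le_iInf fun A => ?_)
    exact le_ratio hm1 fun N => lower_seq hk hI hIP hP x0 hm1 hmk hml A N

end Pool.Agent.H217Z.Paging
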